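import Pool.Agent.Helper19.SQ.GoalsB

/-!
Project SQ (MP_bb32d1_al), packets BL1 and BL2.
-/

set_option autoImplicit false
set_option linter.unusedSectionVars false

namespace Pool.Agent.Helper41.SQ

open Matrix Pool.Agent.Helper19.SQ Pool.Agent.Helper34.SQ

section aux

variable {N l : ℕ} {q : ℂ} {H : A N l q →ₐ[ℂ] Mat N (A N l q)} {M : Type} [AddCommGroup M]
    [Module ℂ M] [Module (A N l q) M] [IsScalarTower ℂ (A N l q) M]

theorem actM_sub (Y Z : Mat N (A N l q)) (f : Ten H M) :
    actM (Y - Z) f = actM Y f - actM Z f := by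
  funext i
  change ∑ j, (Y - Z) i j • f j = (∑ j, Y i j • f j) - ∑ j, Z i j • f j
  rw [← Finset.sum_sub_distrib]
  exact Finset.sum_congr rfl fun j _ => by rw [Matrix.sub_apply, sub_smul]

theorem tv_zero (j : Fin (N + 1)) : tv H j (0 : M) = 0 := by
  funext i
  change (if i = j then (0 : M) else 0) = 0
  rw [ite_self]

theorem actM_diag (a : A N l q) (j : Fin (N + 1)) (m : M) :
    actM (Matrix.diagonal (fun _ => a)) (tv H j m) = tv H j (a • m) := by
  funext i
  rw [actM_apply, Finset.sum_eq_single i]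
  · rw [Matrix.diagonal_apply_eq]
    change a • (if i = j then m else 0) = if i = j then a • m else 0
    by_cases h : i = j
    · rw [if_pos h, if_pos h]
    · rw [if_neg h, if_neg h, smul_zero]
  · intro k _ hk
    rw [Matrix.diagonal_apply_ne _ (Ne.symm hk), zero_smul]
  · intro h; exact absurd (Finset.mem_univ _) h

end aux

theorem cube_zero {R : Type} [Ring R] {x : R} (h3 : x * x * x = x) (hn : IsNilpotent x) :
    x = 0 := by
  obtain ⟨n, hn⟩ := hn
  have h : ∀ k : ℕ, x ^ (2 * k + 1) = x := by
    intro k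
    induction k with
    | zero => simp
    | succ k ih =>
      have : 2 * (k + 1) + 1 = (2 * k + 1) + 1 + 1 := by ring
      rw [this, pow_succ, pow_succ, ih, h3]
  have e : 2 * n + 1 = n + (n + 1) := by ring
  rw [← h n, e, pow_add, hn, zero_mul]

theorem idem_sub_cube {R : Type} [Ring R] {E F : R} (hE : E * E = E) (hF : F * F = F)
    (hc : E * F = F * E) : (E - F) * (E - F) * (E - F) = E - F := by
  have h1 : E * (E * F) = E * F := by rw [← mul_assoc, hE]
  have h2 : F * (E * F) = E * F := by rw [hc, ← mul_assoc, hF]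
  have h3 : (E * F) * E = E * F := by rw [mul_assoc, ← hc, h1]
  have h4 : (E * F) * F = E * F := by rw [mul_assoc, hF]
  calc (E - F) * (E - F) * (E - F)
      = (E * E - E * F - F * E + F * F) * (E - F) := by noncomm_ring
    _ = (E - E * F - E * F + F) * (E - F) := by rw [hE, hF, ← hc]
    _ = E * E - E * F - (E * F) * E + (E * F) * F - (E * F) * E + (E * F) * F + F * E - F * F := by
        noncomm_ring
    _ = E - F := by rw [hE, hF, h3, h4, ← hc]; abel

theorem b_bl1 (hDV : S_DVD) (hXL : S_XLAY) (hLA : S_LAYA) (hTY : S_TYP) (hQS : S_QS)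
    (hFD : S_FDIM) : S_BL1 := by
  intro N l _ q D hl s P hX e he K hK p hp1 hp2 c m
  set d : Mat N (A N l q) := Matrix.diagonal (fun _ => e m) with hd
  have hdc : ∀ Y : Mat N (A N l q), d * Y = Y * d := fun Y => diag_comm (he.cen m) Y
  have hdd : d * d = d := by
    rw [hd, Matrix.diagonal_mul_diagonal]
    congr 1
    funext i
    exact he.idem m
  set PX : Mat N (A N l q) := pev (p c) (Xm N l q) with hPX
  have hPδ : ∀ a, PX * D.dl a = D.dl a * PX := fun a => pev_comm (hX a) _
  set F0 : Mat N (A N l q) := D.dl (e (m - al c)) with hF0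
  have hF00 : F0 * F0 = F0 := by rw [hF0, ← map_mul, he.idem]
  have hFδ : ∀ a, F0 * D.dl a = D.dl a * F0 := fun a => by
    rw [hF0, ← map_mul, he.cen, map_mul]
  have hPP : PX * PX = PX := by
    obtain ⟨r, hr⟩ := hp2 c
    have h1 : pev (p c ^ 2 - p c) (Xm N l q) = 0 := by
      rw [hr]
      change Polynomial.aeval (Xm N l q) _ = 0
      rw [map_mul, map_pow, map_sub, map_pow, Polynomial.aeval_X, map_one, hK, zero_mul]
    have h2 : pev (p c ^ 2 - p c) (Xm N l q) = PX * PX - PX := by
      change Polynomial.aeval (Xm N l q) _ = _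
      rw [map_sub, map_pow, pow_two]
      rfl
    rw [h2] at h1
    exact sub_eq_zero.1 h1
  have hEE : (PX * d) * (PX * d) = PX * d := by
    calc (PX * d) * (PX * d) = PX * (d * PX) * d := by simp only [mul_assoc]
      _ = PX * (PX * d) * d := by rw [hdc]
      _ = (PX * PX) * (d * d) := by simp only [mul_assoc]
      _ = PX * d := by rw [hPP, hdd]
  have hFF : (F0 * d) * (F0 * d) = F0 * d := by
    calc (F0 * d) * (F0 * d) = F0 * (d * F0) * d := by simp only [mul_assoc]
      _ = F0 * (F0 * d) * d := by rw [hdc]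
      _ = (F0 * F0) * (d * d) := by simp only [mul_assoc]
      _ = F0 * d := by rw [hF00, hdd]
  have hEF : (PX * d) * (F0 * d) = (F0 * d) * (PX * d) := by
    calc (PX * d) * (F0 * d) = PX * (d * F0) * d := by simp only [mul_assoc]
      _ = PX * (F0 * d) * d := by rw [hdc]
      _ = (PX * F0) * (d * d) := by simp only [mul_assoc]
      _ = (F0 * PX) * (d * d) := by rw [hF0, hPδ]
      _ = F0 * (PX * d) * d := by simp only [mul_assoc]
      _ = F0 * (d * PX) * d := by rw [hdc]
      _ = (F0 * d) * (PX * d) := by simp only [mul_assoc]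
  have hΘδ : ∀ a, (PX * d - F0 * d) * D.dl a = D.dl a * (PX * d - F0 * d) := by
    intro a
    rw [sub_mul, mul_sub, mul_assoc, mul_assoc, hdc, ← mul_assoc, ← mul_assoc, hPδ, hFδ,
      mul_assoc, mul_assoc]
  have hnil : IsNilpotent (PX * d - F0 * d) := by
    refine hDV N l q D P (hFD N l q P) _ hΘδ ?_
    intro M _ _ _ _ _ lam m0 hm0 j
    rw [actM_sub, actM_mul, actM_mul, hd, actM_diag, he.act M lam m0 m hm0]
    by_cases hty : ty lam = m
    · rw [if_pos hty]
      have h1 := hXL N l q D P hX M lam m0 hm0 j (p c)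
      rw [hp1] at h1
      have hla := hLA N l q D P M lam m0 hm0 j
      have h2 := hQS N l q hl s e he (Ten D.dl M) (Ulow D.dl m0 j) (tv D.dl j m0) (addE lam j)
        hla.1 (fun i => by rw [hla.2 i, sub_self]; exact Submodule.zero_mem _) (m - al c)
      rw [Ten.smul_def, (hTY N l q P lam).2.1 j, hty] at h2
      by_cases hc : c = xl lam j
      · rw [if_pos hc, one_smul] at h1
        rw [hc, if_pos rfl] at h2
        rw [← hc] at h2
        have h3 := Submodule.sub_mem _ h1 h2
        rw [sub_sub_sub_cancel_right] at h3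
        exact h3
      · rw [if_neg hc, zero_smul, sub_zero] at h1
        have hne : ¬ (m - al (xl lam j) = m - al c) := by
          intro h
          exact hc (((hTY N l q P lam).2.2.2.1 _ _ (sub_right_injective h)).symm)
        rw [if_neg hne, sub_zero] at h2
        exact Submodule.sub_mem _ h1 h2
    · rw [if_neg hty, tv_zero, map_zero, map_zero, sub_zero]
      exact Submodule.zero_mem _
  exact sub_eq_zero.1 (cube_zero (idem_sub_cube hEE hFF hEF) hnil)

theorem b_bl2 (hDV : S_DVE) (hLA : S_LAYS) (hTY : S_TYP) (hQS : S_QS) (hFD : S_FDIM) :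
    S_BL2 := by
  intro N l _ q D hl s P e he m m' hne
  by_contra hno
  apply hne
  set d : Mat N (A N l q) := Matrix.diagonal (fun _ => e m) with hd
  have hdc : ∀ Y : Mat N (A N l q), d * Y = Y * d := fun Y => diag_comm (he.cen m) Y
  have hdd : d * d = d := by
    rw [hd, Matrix.diagonal_mul_diagonal]
    congr 1
    funext i
    exact he.idem m
  set F0 : Mat N (A N l q) := D.ep (e m') with hF0
  have hF00 : F0 * F0 = F0 := by rw [hF0, ← map_mul, he.idem]
  have hFδ : ∀ a, F0 * D.ep a = D.ep a * F0 := fun a => by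
    rw [hF0, ← map_mul, he.cen, map_mul]
  have hFF : (F0 * d) * (F0 * d) = F0 * d := by
    calc (F0 * d) * (F0 * d) = F0 * (d * F0) * d := by simp only [mul_assoc]
      _ = F0 * (F0 * d) * d := by rw [hdc]
      _ = (F0 * F0) * (d * d) := by simp only [mul_assoc]
      _ = F0 * d := by rw [hF00, hdd]
  have hΘδ : ∀ a, (F0 * d) * D.ep a = D.ep a * (F0 * d) := by
    intro a
    rw [mul_assoc, hdc, ← mul_assoc, hFδ, mul_assoc]
  have hnil : IsNilpotent (F0 * d) := by
    refine hDV N l q D P (hFD N l q P) _ hΘδ ?_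
    intro M _ _ _ _ _ lam m0 hm0 j
    rw [actM_mul, hd, actM_diag, he.act M lam m0 m hm0]
    by_cases hty : ty lam = m
    · rw [if_pos hty]
      have hla := hLA N l q D P M lam m0 hm0 j
      have h2 := hQS N l q hl s e he (Ten D.ep M) (Uhigh D.ep m0 j) (tv D.ep j m0) (subE lam j)
        hla.1 (fun i => by rw [hla.2 i, sub_self]; exact Submodule.zero_mem _) m'
      rw [Ten.smul_def, (hTY N l q P lam).2.2.1 j, hty] at h2
      have hne : ¬ (m + al (xl lam j - 1) = m') := fun h => hno ⟨_, h.symm⟩
      rw [if_neg hne, sub_zero] at h2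
      exact h2
    · rw [if_neg hty, tv_zero, map_zero]
      exact Submodule.zero_mem _
  exact cube_zero (by rw [hFF, hFF]) hnil

end Pool.Agent.Helper41.SQ
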