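import Pool.Agent.Helper19.SQ.GoalsB

/-!
Project SQ (MP_bb32d1_al), helper41: assembly of sections 8 and 9.
-/

set_option autoImplicit false

namespace Pool.Agent.Helper41.SQ

open Matrix Pool.Agent.Helper19.SQ Pool.Agent.Helper34.SQ

theorem s_core (h0 : S_CORE0) (hEV : S_EVAL) (hBE : S_BEVAL) (hID : S_IDEM) (hNP : S_NILP)
    (hXN : S_XNIL) (hPC : S_PC) (hB1 : S_BL1) (hB2 : S_BL2) (hDL : S_DL) : S_CORE := by
  intro N l _ q D hl s C0 P hs hC
  obtain ⟨-, -, -, -, -, -, hbc, -, -, -, -, hpc, hpf⟩ := h0 _ _ C0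
  have hX : ∀ a, Xm N l q * D.dl a = D.dl a * Xm N l q := by
    intro a
    have := C0.Xδ a
    rwa [hC.X, hC.δ] at this
  obtain ⟨e, he⟩ := hID N l q hl s P C0.pi hpc
    (fun k => by rw [← hC.φ]; exact hpf k)
    (fun k M _ _ _ _ lam v hv => hEV N l q D hl s C0 P hs hC k M lam v hv)
  obtain ⟨K, hK⟩ := hXN N l q D P hX
  have hnil : ∀ (m : ZMod l → ℤ) (k : ℕ),
      IsNilpotent ((C0.b k - algebraMap ℂ (A N l q) (Bco q m k)) * e m) :=
    hNP N l q hl s P e he C0.b hbc
      (fun k M _ _ _ _ lam v hv => hBE N l q D hl s C0 P hs hC k M lam v hv)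
  choose K' hK' using fun m : ZMod l → ℤ =>
    hDL N l q D hl s C0 P hC e he K hK m (hnil m)
  obtain ⟨p, hp1, hp2, hp3⟩ := hPC l q P.prim P.odd (max K ((typs N l).sup K'))
  have hd : ∀ {a b : ℕ}, a ≤ b → ∀ {r : Polynomial ℂ},
      (Polynomial.X ^ l - 1) ^ b ∣ r → (Polynomial.X ^ l - 1) ^ a ∣ r :=
    fun hab _ h => (pow_dvd_pow _ hab).trans h
  have hBL1 : ∀ (c : ZMod l) (m : ZMod l → ℤ),
      pev (p c) (Xm N l q) * Matrix.diagonal (fun _ => e m)
      = D.dl (e (m - al c)) * Matrix.diagonal (fun _ => e m) :=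
    hB1 N l q D hl s P hX e he K hK p hp1 (fun c => hd (le_max_left _ _) (hp2 c))
  have hBL2 := hB2 N l q D hl s P e he
  refine ⟨{ C0 with
    e := e
    e_cen := he.cen
    e_idem := he.idem
    e_orth := he.orth
    types := typs N l
    e_types := he.out
    types_nonneg := fun m hm => (mem_typs.1 hm).1
    e_sum := he.sum
    φe := fun m => by rw [hC.φ]; exact he.fix m
    pc := p
    BL1 := fun c m => by
      rw [hC.X, hC.δ]; exact hBL1 c m
    BL2 := fun m m' h => by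
      rw [hC.ε] at h; exact hBL2 m m' h
    DL := fun c m => ?_ }, rfl, rfl, he⟩
  by_cases hm : m ∈ typs N l
  · have h1 := hK' m (p c) (hd ((Finset.le_sup hm).trans (le_max_right _ _)) (hp3 c))
    have h2 : (∑ c' : ZMod l, ((m (c' + 1) - m c' : ℤ) : ℂ) * (p c).eval (qz q (2 * c')))
        = ((m (c + 1) - m c : ℤ) : ℂ) := by
      simp only [hp1]
      rw [Finset.sum_eq_single c]
      · rw [if_pos rfl, mul_one]
      · intro c' _ hc'
        rw [if_neg (fun h => hc' h.symm), mul_zero]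
      · intro h; exact absurd (Finset.mem_univ _) h
    rw [h2] at h1
    exact h1
  · rw [he.out m hm, mul_zero, smul_zero]

end Pool.Agent.Helper41.SQ
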