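import Pool.Agent.Helper19.SQ.GoalsB

/-!
Project SQ (MP_bb32d1_al), packet DVG (nilpotency by layers).
-/

set_option autoImplicit false
set_option linter.unusedSectionVars false

namespace Pool.Agent.Helper41.SQ

open Matrix Pool.Agent.Helper19.SQ Pool.Agent.Helper34.SQ

section aux

variable {N l : ℕ} {q : ℂ} {H : A N l q →ₐ[ℂ] Mat N (A N l q)} {M : Type} [AddCommGroup M]
    [Module ℂ M] [Module (A N l q) M] [IsScalarTower ℂ (A N l q) M]

/-- evaluation of a column at a place. -/
def evT (H : A N l q →ₐ[ℂ] Mat N (A N l q)) (M : Type) [AddCommGroup M]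
    [Module ℂ M] [Module (A N l q) M] [IsScalarTower ℂ (A N l q) M] (i : Fin (N + 1)) :
    Ten H M →+ M where
  toFun f := f i
  map_zero' := rfl
  map_add' _ _ := rfl

theorem tv_sum (f : Ten H M) : f = ∑ j, tv H j (f j) := by
  funext i
  change evT H M i f = evT H M i (∑ j, tv H j (f j))
  rw [map_sum, Finset.sum_eq_single i]
  · change f i = if i = i then f i else 0
    rw [if_pos rfl]
  · intro j _ hj
    change (if i = j then f j else 0) = 0
    rw [if_neg (Ne.symm hj)]
  · intro h; exact absurd (Finset.mem_univ _) h

end aux

theorem b_dvg (hSV : S_SV) : S_DVG := by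
  classical
  intro N l _ q P hfd H ρ Θ hΘ hgen hlay
  have key : ∀ (n : ℕ) (M : Type) [AddCommGroup M] [Module ℂ M] [Module (A N l q) M]
      [IsScalarTower ℂ (A N l q) M] [FiniteDimensional ℂ M], Module.finrank ℂ M ≤ n →
      ∃ r : ℕ, ∀ f : Ten H M, actM (Θ ^ r) f = 0 := by
    intro n
    induction n with
    | zero =>
      intro M _ _ _ _ _ hn
      refine ⟨0, fun f => ?_⟩
      have hs : Subsingleton M := Module.finrank_zero_iff.1 (Nat.le_zero.1 hn)
      funext i
      exact Subsingleton.elim _ _
    | succ n ih =>
      intro M _ _ _ _ _ hn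
      by_cases hM : ∃ x : M, x ≠ 0
      · obtain ⟨lam, m, hm0, hm⟩ := hSV N l q P M hM
        set M1 : Submodule (A N l q) M := Submodule.span (A N l q) {m} with hM1
        -- the quotient
        set π : M →ₗ[ℂ] (M ⧸ M1) := M1.mkQ.restrictScalars ℂ with hπ
        have hsurj : Function.Surjective π := M1.mkQ_surjective
        have hfin : FiniteDimensional ℂ (M ⧸ M1) := Module.Finite.of_surjective π hsurj
        have hlt : Module.finrank ℂ (M ⧸ M1) ≤ n := by
          have h1 := LinearMap.finrank_range_add_finrank_ker π
          rw [LinearMap.range_eq_top.2 hsurj, finrank_top] at h1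
          have h2 : 0 < Module.finrank ℂ (LinearMap.ker π) := by
            rw [Module.finrank_pos_iff_exists_ne_zero]
            refine ⟨⟨m, ?_⟩, fun h => hm0 (congrArg Subtype.val h)⟩
            rw [LinearMap.mem_ker]
            change M1.mkQ m = 0
            rw [Submodule.mkQ_apply, Submodule.Quotient.mk_eq_zero]
            exact Submodule.mem_span_singleton_self m
          omega
        obtain ⟨r, hr⟩ := ih (M ⧸ M1) hlt
        -- the filtration
        set V : ℕ → Submodule (A N l q) (Ten H M) := fun t =>
          Submodule.span (A N l q) {f : Ten H M | ∃ i, ρ i < t ∧ f = tv H i m} with hV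
        have ha : ∀ t f, f ∈ V (t + 1) → actM Θ f ∈ V t := by
          intro t
          have : V (t + 1) ≤ (V t).comap (actMA Θ hΘ) := by
            rw [hV]
            refine Submodule.span_le.2 ?_
            rintro f ⟨i, hi, rfl⟩
            change actM Θ (tv H i m) ∈ V t
            refine Submodule.span_mono ?_ (hlay M lam m hm i)
            rintro g ⟨i', hi', rfl⟩
            exact ⟨i', lt_of_lt_of_le hi' (Nat.lt_succ_iff.1 hi), rfl⟩
          intro f hf
          exact this hf
        have hb : ∀ t f, f ∈ V t → actM (Θ ^ t) f = 0 := by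
          intro t
          induction t with
          | zero =>
            intro f hf
            have hf0 : f = 0 := by
              have h3 : V 0 = ⊥ := by
                rw [hV]
                refine Submodule.span_eq_bot.2 ?_
                rintro g ⟨i, hi, -⟩
                exact absurd hi (Nat.not_lt_zero _)
              rw [h3] at hf
              exact (Submodule.mem_bot _).1 hf
            rw [hf0, map_zero]
          | succ t iht =>
            intro f hf
            rw [pow_succ, actM_mul]
            exact iht _ (ha t f hf)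
        set T : ℕ := (Finset.univ.sup ρ) + 1 with hT
        have hc : ∀ f : Ten H M, (∀ i, f i ∈ M1) → f ∈ V T := by
          intro f hf
          rw [tv_sum f]
          refine Submodule.sum_mem _ fun j _ => ?_
          obtain ⟨a, ha'⟩ := Submodule.mem_span_singleton.1 (hf j)
          rw [← ha']
          refine Submodule.span_mono ?_ (hgen M a m j)
          rintro g ⟨i, rfl⟩
          exact ⟨i, Nat.lt_succ_of_le (Finset.le_sup (Finset.mem_univ i)), rfl⟩
        have hd : ∀ (Y : Mat N (A N l q)) (f : Ten H M) (i : Fin (N + 1)),
            (actM (H := H) (M := M ⧸ M1) Y (fun j => M1.mkQ (f j))) i = M1.mkQ (actM Y f i) := by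
          intro Y f i
          rw [actM_apply, actM_apply, map_sum]
          exact Finset.sum_congr rfl fun j _ => (map_smul M1.mkQ (Y i j) (f j)).symm
        refine ⟨T + r, fun f => ?_⟩
        rw [pow_add, actM_mul]
        refine hb T _ (hc _ fun i => ?_)
        have h4 := hd (Θ ^ r) f i
        rw [hr] at h4
        rw [← Submodule.Quotient.mk_eq_zero, ← Submodule.mkQ_apply]
        exact h4.symm
      · refine ⟨0, fun f => ?_⟩
        funext i
        by_contra h
        exact hM ⟨_, h⟩
  obtain ⟨r, hr⟩ := key _ (A N l q) le_rfl
  refine ⟨r, ?_⟩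
  ext i j
  have h5 := congrFun (hr (tv H j (1 : A N l q))) i
  rw [actM_apply, Finset.sum_eq_single j] at h5
  · change (Θ ^ r) i j • (if j = j then (1 : A N l q) else 0) = 0 at h5
    rw [if_pos rfl, smul_eq_mul, mul_one] at h5
    exact h5
  · intro k _ hk
    change (Θ ^ r) i k • (if k = j then (1 : A N l q) else 0) = 0
    rw [if_neg hk, smul_zero]
  · intro h; exact absurd (Finset.mem_univ _) h

end Pool.Agent.Helper41.SQ
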