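import Pool.Agent.Helper19.SQ.GoalsB

/-!
Project SQ (MP_bb32d1_al), packet IDEM (block idempotents).
-/

set_option autoImplicit false
set_option linter.unusedSectionVars false

namespace Pool.Agent.Helper41.SQ

open Matrix Pool.Agent.Helper19.SQ Pool.Agent.Helper34.SQ Polynomial

section aux

variable {B : Type} [Ring B] [Algebra ℂ B]

theorem aeval_cen {g : B} (hg : ∀ a, g * a = a * g) (Q : ℂ[X]) (a : B) :
    aeval g Q * a = a * aeval g Q := by
  induction Q using Polynomial.induction_on' with
  | add P Q hP hQ => rw [map_add, add_mul, mul_add, hP, hQ]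
  | monomial n c =>
    rw [aeval_monomial]
    have h1 : Commute (g ^ n) a := (show Commute g a from hg a).pow_left n
    rw [mul_assoc, h1.eq, ← mul_assoc, Algebra.commutes, mul_assoc]

theorem list_cen {L : List B} (h : ∀ x ∈ L, ∀ a, x * a = a * x) (a : B) :
    L.prod * a = a * L.prod := by
  induction L with
  | nil => simp
  | cons x L ih =>
    rw [List.prod_cons, mul_assoc, ih (fun y hy => h y (List.mem_cons_of_mem _ hy)), ← mul_assoc,
      h x List.mem_cons_self a, mul_assoc]

theorem list_idem {L : List B} (h : ∀ x ∈ L, ∀ a, x * a = a * x) (h2 : ∀ x ∈ L, x * x = x) :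
    L.prod * L.prod = L.prod := by
  induction L with
  | nil => simp
  | cons x L ih =>
    have ih' := ih (fun y hy => h y (List.mem_cons_of_mem _ hy))
      (fun y hy => h2 y (List.mem_cons_of_mem _ hy))
    have hx := h x List.mem_cons_self
    rw [List.prod_cons]
    calc x * L.prod * (x * L.prod) = x * (L.prod * x) * L.prod := by simp only [mul_assoc]
      _ = x * (x * L.prod) * L.prod := by rw [← hx L.prod]
      _ = (x * x) * (L.prod * L.prod) := by simp only [mul_assoc]
      _ = x * L.prod := by rw [h2 x List.mem_cons_self, ih']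

end aux

section mods

variable {N l : ℕ} {q : ℂ} {M : Type} [AddCommGroup M] [Module ℂ M]
    [Module (A N l q) M] [IsScalarTower ℂ (A N l q) M]

theorem aeval_smul_eig {g : A N l q} {v : M} {t : ℂ} (h : g • v = t • v) (Q : ℂ[X]) :
    aeval g Q • v = Q.eval t • v := by
  induction Q using Polynomial.induction_on' with
  | add P Q hP hQ => rw [map_add, add_smul, hP, hQ, eval_add, add_smul]
  | monomial n c =>
    rw [aeval_monomial, mul_smul, eval_monomial]
    have h1 : ∀ n : ℕ, g ^ n • v = t ^ n • v := by
      intro n
      induction n with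
      | zero => simp
      | succ n ih =>
        rw [pow_succ, mul_smul, h, smul_smul_comm, ih, smul_smul, pow_succ, mul_comm]
    rw [h1, algebraMap_smul', smul_smul]

open Classical in
theorem list_act (f : ℕ → A N l q) (c : ℕ → Prop) {v : M}
    (h : ∀ i, f i • v = if c i then v else 0) (n : ℕ) :
    ((List.range n).map f).prod • v = if ∀ i, i < n → c i then v else 0 := by
  induction n with
  | zero => simp
  | succ n ih =>
    rw [List.range_succ, List.map_append, List.map_singleton, List.prod_append,
      List.prod_singleton, mul_smul, h]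
    by_cases hn : c n
    · rw [if_pos hn, ih]
      by_cases hc : ∀ i, i < n → c i
      · rw [if_pos hc, if_pos]
        intro i hi
        rcases Nat.lt_succ_iff_lt_or_eq.1 hi with h1 | h1
        · exact hc i h1
        · exact h1 ▸ hn
      · rw [if_neg hc, if_neg]
        intro h1
        exact hc fun i hi => h1 i (Nat.lt_succ_of_lt hi)
    · rw [if_neg hn, smul_zero, if_neg]
      intro h1
      exact hn (h1 n (Nat.lt_succ_self n))

end mods

theorem b_idem (hSP : S_SPEC) (hFO : S_FOUR) (hNC : S_NILC) (hFD : S_FDIM) (hTY : S_TYP) :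
    S_IDEM := by
  classical
  intro N l _ q hl s P p hpc hpf hpe
  haveI : FiniteDimensional ℂ (A N l q) := hFD N l q P
  choose Pk Yk rk h1 h2 h3 h4 using fun (k : ℕ) (m : ZMod l → ℤ) =>
    hSP (A N l q) (p k) (pim q m k)
  -- the idempotents
  set E : ℕ → (ZMod l → ℤ) → A N l q := fun k m => aeval (p k) (Pk k m) with hE
  have Ecen : ∀ k m a, E k m * a = a * E k m := fun k m a => aeval_cen (hpc k) _ a
  have Efix : ∀ k m, tor N l q hl s (E k m) = E k m := by
    intro k m
    rw [hE]
    change tor N l q hl s (aeval (p k) (Pk k m)) = aeval (p k) (Pk k m)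
    rw [← Polynomial.aeval_algHom_apply, hpf]
  have Eact : ∀ (k : ℕ) (m : ZMod l → ℤ) (M : Type) [AddCommGroup M] [Module ℂ M]
      [Module (A N l q) M] [IsScalarTower ℂ (A N l q) M] (lam : Fin (N + 1) → ZMod l) (v : M),
      Sing q lam v → E k m • v = if pim q (ty lam) k = pim q m k then v else 0 := by
    intro k m M _ _ _ _ lam v hv
    have hk := hpe k M lam v hv
    have hQ := fun Q => aeval_smul_eig (M := M) hk Q
    change aeval (p k) (Pk k m) • v = _
    by_cases hs : pim q (ty lam) k = pim q m k
    · rw [if_pos hs, hQ, hs, h4, one_smul]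
    · rw [if_neg hs, hQ]
      have h5 := hQ ((X - C (pim q m k)) ^ rk k m * Pk k m)
      rw [map_mul, map_pow, map_sub, aeval_X, aeval_C, h2, zero_smul, eval_mul, eval_pow,
        eval_sub, eval_X, eval_C, mul_smul] at h5
      have h6 := (smul_eq_zero.1 h5.symm)
      rcases h6 with h6 | h6
      · exact absurd h6 (pow_ne_zero _ (sub_ne_zero.2 hs))
      · exact h6
  set e' : (ZMod l → ℤ) → A N l q := fun m =>
    ((List.range (l - 1)).map fun i => E (i + 1) m).prod with he'
  have e'cen : ∀ m a, e' m * a = a * e' m := by
    intro m a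
    refine list_cen (fun x hx b => ?_) a
    obtain ⟨i, -, rfl⟩ := List.mem_map.1 hx
    exact Ecen _ _ _
  have e'idem : ∀ m, e' m * e' m = e' m := by
    intro m
    refine list_idem (fun x hx b => ?_) (fun x hx => ?_)
    · obtain ⟨i, -, rfl⟩ := List.mem_map.1 hx
      exact Ecen _ _ _
    · obtain ⟨i, -, rfl⟩ := List.mem_map.1 hx
      exact h1 _ _
  have e'fix : ∀ m, tor N l q hl s (e' m) = e' m := by
    intro m
    change tor N l q hl s ((List.range (l - 1)).map fun i => E (i + 1) m).prod
      = ((List.range (l - 1)).map fun i => E (i + 1) m).prod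
    rw [map_list_prod, List.map_map]
    congr 1
    refine List.map_congr_left fun i _ => ?_
    exact Efix _ _
  have e'act : ∀ (m : ZMod l → ℤ), m ∈ typs N l → ∀ (M : Type) [AddCommGroup M] [Module ℂ M]
      [Module (A N l q) M] [IsScalarTower ℂ (A N l q) M] (lam : Fin (N + 1) → ZMod l) (v : M),
      Sing q lam v → e' m • v = if ty lam = m then v else 0 := by
    intro m hm M _ _ _ _ lam v hv
    have hty := (hTY N l q P lam).1
    change ((List.range (l - 1)).map fun i => E (i + 1) m).prod • v = _
    rw [list_act (fun i => E (i + 1) m) (fun i => pim q (ty lam) (i + 1) = pim q m (i + 1))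
      (fun i => Eact (i + 1) m M lam v hv)]
    by_cases h : ty lam = m
    · rw [if_pos h, if_pos (fun i _ => by rw [h])]
    · rw [if_neg h, if_neg]
      intro h'
      apply h
      refine hFO N l q P _ hty _ hm fun k hk1 hk2 => ?_
      have := h' (k - 1) (by omega)
      rwa [Nat.sub_add_cancel hk1] at this
  -- ZID
  have zid : ∀ a : A N l q, (∀ b, a * b = b * a) → a * a = a →
      (∀ (lam : Fin (N + 1) → ZMod l) (v : A N l q), Sing q lam v → a * v = 0) → a = 0 := by
    intro a hc hi hk
    obtain ⟨n, hn⟩ := hNC N l q P a hc hk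
    have h5 : ∀ n : ℕ, a ^ (n + 1) = a := by
      intro n
      induction n with
      | zero => rw [zero_add, pow_one]
      | succ n ih => rw [pow_succ, ih, hi]
    cases n with
    | zero =>
      rw [pow_zero] at hn
      calc a = a * 1 := (mul_one a).symm
        _ = 0 := by rw [hn, mul_zero]
    | succ n => rw [← h5 n, hn]
  set e : (ZMod l → ℤ) → A N l q := fun m => if m ∈ typs N l then e' m else 0 with he
  have e_pos : ∀ m, m ∈ typs N l → e m = e' m := fun m hm => if_pos hm
  have e_neg : ∀ m, m ∉ typs N l → e m = 0 := fun m hm => if_neg hm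
  have ecen : ∀ m a, e m * a = a * e m := by
    intro m a
    by_cases hm : m ∈ typs N l
    · rw [e_pos m hm, e'cen]
    · rw [e_neg m hm, zero_mul, mul_zero]
  have eidem : ∀ m, e m * e m = e m := by
    intro m
    by_cases hm : m ∈ typs N l
    · rw [e_pos m hm, e'idem]
    · rw [e_neg m hm, zero_mul]
  have eact : ∀ (M : Type) [AddCommGroup M] [Module ℂ M]
      [Module (A N l q) M] [IsScalarTower ℂ (A N l q) M] (lam : Fin (N + 1) → ZMod l) (v : M)
      (m : ZMod l → ℤ), Sing q lam v → e m • v = if ty lam = m then v else 0 := by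
    intro M _ _ _ _ lam v m hv
    by_cases hm : m ∈ typs N l
    · rw [e_pos m hm]
      exact e'act m hm M lam v hv
    · rw [e_neg m hm, zero_smul, if_neg]
      intro h
      exact hm (h ▸ (hTY N l q P lam).1)
  have eorth : ∀ m m', m ≠ m' → e m * e m' = 0 := by
    intro m m' hmm
    refine zid _ (fun b => ?_) ?_ ?_
    · rw [mul_assoc, ecen m' b, ← mul_assoc, ecen m b, mul_assoc]
    · calc e m * e m' * (e m * e m') = e m * (e m' * e m) * e m' := by simp only [mul_assoc]
        _ = e m * (e m * e m') * e m' := by rw [ecen m' (e m)]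
        _ = (e m * e m) * (e m' * e m') := by simp only [mul_assoc]
        _ = e m * e m' := by rw [eidem, eidem]
    · intro lam v hv
      have k1 := eact (A N l q) lam v m hv
      have k2 := eact (A N l q) lam v m' hv
      rw [smul_eq_mul] at k1 k2
      rw [mul_assoc, k2]
      by_cases h : ty lam = m'
      · rw [if_pos h, k1, if_neg]
        intro h'
        exact hmm (h'.symm.trans h)
      · rw [if_neg h, mul_zero]
  refine ⟨e, ⟨ecen, eidem, eorth, e_neg, ?_, ?_, eact⟩⟩
  · -- the sum is one
    have hsq : (∑ m ∈ typs N l, e m) * (∑ m ∈ typs N l, e m) = ∑ m ∈ typs N l, e m := by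
      rw [Finset.sum_mul_sum]
      refine Finset.sum_congr rfl fun m hm => ?_
      rw [Finset.sum_eq_single m]
      · exact eidem m
      · intro m' _ hm'
        exact eorth m m' (Ne.symm hm')
      · intro h; exact absurd hm h
    have hz := zid (1 - ∑ m ∈ typs N l, e m) (fun b => by
        rw [sub_mul, mul_sub, one_mul, mul_one, Finset.sum_mul, Finset.mul_sum]
        congr 1
        exact Finset.sum_congr rfl fun m _ => ecen m b)
      (by rw [sub_mul, one_mul, mul_sub, mul_one, hsq, sub_self, sub_zero])
      (fun lam v hv => by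
        rw [sub_mul, one_mul, Finset.sum_mul, sub_eq_zero]
        rw [Finset.sum_eq_single (ty lam)]
        · have k1 := eact (A N l q) lam v (ty lam) hv
          rw [smul_eq_mul, if_pos rfl] at k1
          exact k1.symm
        · intro m _ hm
          have k1 := eact (A N l q) lam v m hv
          rw [smul_eq_mul, if_neg (Ne.symm hm)] at k1
          exact k1
        · intro h; exact absurd (hTY N l q P lam).1 h)
    exact (sub_eq_zero.1 hz).symm
  · intro m
    by_cases hm : m ∈ typs N l
    · rw [e_pos m hm, e'fix]
    · rw [e_neg m hm, map_zero]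

end Pool.Agent.Helper41.SQ
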