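import Pool.Agent.Helper19.SQ.Defs2

/-!
Project SQ (MP_bb32d1_al), sections 8 and 9: basic definitions and lemmas (proved).
-/

set_option autoImplicit false
set_option linter.unusedSectionVars false

namespace Pool.Agent.Helper41.SQ

noncomputable section

open Pool.Agent.Helper19.SQ

/-! ### characters -/

section Chi

variable {N l : ℕ} {q : ℂ} (M : Type) [AddCommGroup M] [Module ℂ M]
    [Module (A N l q) M] [IsScalarTower ℂ (A N l q) M]

/-- `a ↦ lsm a` as an algebra map. -/
def lsmA : A N l q →ₐ[ℂ] Module.End ℂ M where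
  toFun a := lsm a
  map_one' := by ext m; simp
  map_mul' a b := by ext m; simp [mul_smul]
  map_zero' := by ext m; simp
  map_add' a b := by ext m; simp [add_smul]
  commutes' c := by
    ext m
    simp [Algebra.algebraMap_eq_smul_one]

theorem lsmA_apply (a : A N l q) (m : M) : lsmA M a m = a • m := rfl

/-- the character as a linear map. -/
def chiL : A N l q →ₗ[ℂ] ℂ := (LinearMap.trace ℂ M) ∘ₗ (lsmA M).toLinearMap

theorem chiL_apply (a : A N l q) : chiL M a = chi M a := rfl

theorem chi_add (a b : A N l q) : chi M (a + b) = chi M a + chi M b := by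
  rw [← chiL_apply, ← chiL_apply, ← chiL_apply, map_add]

theorem chi_smul (c : ℂ) (a : A N l q) : chi M (c • a) = c * chi M a := by
  rw [← chiL_apply, ← chiL_apply, map_smul, smul_eq_mul]

theorem chi_mul_comm (a b : A N l q) : chi M (a * b) = chi M (b * a) := by
  change LinearMap.trace ℂ M (lsmA M (a * b)) = LinearMap.trace ℂ M (lsmA M (b * a))
  rw [map_mul (lsmA M), map_mul (lsmA M), LinearMap.trace_mul_comm]

theorem chiL_mul_comm (a b : A N l q) : chiL M (a * b) = chiL M (b * a) := chi_mul_comm M a b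

/-- the character of an element that acts as a scalar. -/
theorem chi_scalar [FiniteDimensional ℂ M] {a : A N l q} {c : ℂ} (h : ∀ m : M, a • m = c • m) :
    chi M a = c * (Module.finrank ℂ M : ℂ) := by
  have e : (lsm a : M →ₗ[ℂ] M) = c • LinearMap.id := by ext m; simpa using h m
  rw [chi, e, map_smul, LinearMap.trace_id, smul_eq_mul]

theorem chi_one [FiniteDimensional ℂ M] : chi M (1 : A N l q) = (Module.finrank ℂ M : ℂ) := by
  rw [chi_scalar M (c := 1) (fun m => by simp), one_mul]

/-- scalars commute with the action. -/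
theorem smul_smul_comm (c : ℂ) (a : A N l q) (m : M) : a • c • m = c • a • m :=
  (lsm a).map_smul c m

theorem algebraMap_smul' (c : ℂ) (m : M) : (algebraMap ℂ (A N l q) c) • m = c • m := by
  rw [Algebra.algebraMap_eq_smul_one, smul_assoc, one_smul]

end Chi

/-! ### powers of `q` indexed by `Z/l` -/

section QZ

variable {l : ℕ} [NeZero l] {q : ℂ}

theorem qz_nat (h : q ^ l = 1) (k : ℕ) : qz q (k : ZMod l) = q ^ k := by
  rw [qz, ZMod.val_natCast]
  conv_rhs => rw [← Nat.mod_add_div k l, pow_add, pow_mul, h, one_pow, mul_one]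

theorem qz_zero : qz q (0 : ZMod l) = 1 := by rw [qz, ZMod.val_zero, pow_zero]

theorem qz_add (h : q ^ l = 1) (a b : ZMod l) : qz q (a + b) = qz q a * qz q b := by
  rw [qz, qz, qz, ← pow_add, ZMod.val_add]
  conv_rhs => rw [← Nat.mod_add_div (a.val + b.val) l, pow_add, pow_mul, h, one_pow, mul_one]

theorem qz_pow_l (h : q ^ l = 1) (a : ZMod l) : qz q a ^ l = 1 := by
  rw [qz, ← pow_mul, mul_comm, pow_mul, h, one_pow]

theorem qz_ne_zero (h : q ^ l = 1) (a : ZMod l) : qz q a ≠ 0 := by
  intro h0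
  have := qz_pow_l h a
  rw [h0, zero_pow (NeZero.ne l)] at this
  exact zero_ne_one this

theorem qz_mul_nat (h : q ^ l = 1) (a : ZMod l) (k : ℕ) : qz q ((k : ZMod l) * a) = qz q a ^ k := by
  induction k with
  | zero => simp [qz_zero]
  | succ k ih => rw [Nat.cast_succ, add_mul, one_mul, qz_add h, ih, pow_succ]

theorem qz_inj (h : IsPrimitiveRoot q l) {a b : ZMod l} (hab : qz q a = qz q b) : a = b := by
  apply ZMod.val_injective
  exact h.pow_inj (ZMod.val_lt a) (ZMod.val_lt b) hab

theorem two_mul_inj (hodd : Odd l) {a b : ZMod l} (h : 2 * a = 2 * b) : a = b := by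
  have hu : IsUnit (2 : ZMod l) := by
    have := (ZMod.isUnit_iff_coprime 2 l).2 (Nat.coprime_two_left.2 hodd)
    simpa using this
  exact hu.mul_left_cancel h

theorem qz2_inj (h : IsPrimitiveRoot q l) (hodd : Odd l) {a b : ZMod l}
    (hab : qz q (2 * a) = qz q (2 * b)) : a = b := two_mul_inj hodd (qz_inj h hab)

end QZ

/-! ### types and the numbers `pi_k(m)` -/

section Types

variable {l : ℕ} [NeZero l]

/-- the finite set of types: `m >= 0` with sum `N + 1`. -/
def typs (N l : ℕ) [NeZero l] : Finset (ZMod l → ℤ) :=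
  (Fintype.piFinset fun _ => Finset.Icc (0 : ℤ) (N + 1)).filter fun m => ∑ c, m c = N + 1

theorem mem_typs {N : ℕ} {m : ZMod l → ℤ} :
    m ∈ typs N l ↔ (∀ c, 0 ≤ m c) ∧ ∑ c, m c = N + 1 := by
  rw [typs, Finset.mem_filter, Fintype.mem_piFinset]
  constructor
  · rintro ⟨h1, h2⟩
    exact ⟨fun c => (Finset.mem_Icc.1 (h1 c)).1, h2⟩
  · rintro ⟨h1, h2⟩
    refine ⟨fun c => Finset.mem_Icc.2 ⟨h1 c, ?_⟩, h2⟩
    rw [← h2]
    exact Finset.single_le_sum (fun i _ => h1 i) (Finset.mem_univ c)

/-- `pi_k(m) = sum_c (m_{c+1} - m_c) q^{2kc}`. -/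
def pim (q : ℂ) (m : ZMod l → ℤ) (k : ℕ) : ℂ :=
  ∑ c : ZMod l, ((m (c + 1) - m c : ℤ) : ℂ) * qz q (2 * c) ^ k

theorem sum_diff (m : ZMod l → ℤ) : ∑ c : ZMod l, (m (c + 1) - m c) = 0 := by
  rw [Finset.sum_sub_distrib, sub_eq_zero]
  exact Equiv.sum_comp (Equiv.addRight (1 : ZMod l)) m

theorem pim_zero (q : ℂ) (m : ZMod l → ℤ) : pim q m 0 = 0 := by
  simp only [pim, pow_zero, mul_one]
  rw [← Int.cast_sum, sum_diff, Int.cast_zero]

end Types

/-! ### power series -/

section Series

/-- `1 - a z` as a unit of the ring of power series. -/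
def linU (a : ℂ) : (PowerSeries ℂ)ˣ where
  val := 1 - PowerSeries.C a * PowerSeries.X
  inv := PowerSeries.mk fun n => a ^ n
  val_inv := by
    ext n
    rw [sub_mul, one_mul, mul_assoc, map_sub, PowerSeries.coeff_mk, PowerSeries.coeff_C_mul]
    cases n with
    | zero => simp
    | succ n => simp [PowerSeries.coeff_succ_X_mul, PowerSeries.coeff_one, pow_succ']
  inv_val := by
    rw [mul_comm]
    ext n
    rw [sub_mul, one_mul, mul_assoc, map_sub, PowerSeries.coeff_mk, PowerSeries.coeff_C_mul]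
    cases n with
    | zero => simp
    | succ n => simp [PowerSeries.coeff_succ_X_mul, PowerSeries.coeff_one, pow_succ']

/-- `B_m(z) = prod_c (1 - q^{2c} z)^{m_c - m_{c+1}}`. -/
def Bser (q : ℂ) {l : ℕ} [NeZero l] (m : ZMod l → ℤ) : (PowerSeries ℂ)ˣ :=
  ∏ c : ZMod l, linU (qz q (2 * c)) ^ (m c - m (c + 1))

/-- the coefficient of `z^{k+1}` in `B_m`. -/
def Bco (q : ℂ) {l : ℕ} [NeZero l] (m : ZMod l → ℤ) (k : ℕ) : ℂ :=
  PowerSeries.coeff (k + 1) (Bser q m : PowerSeries ℂ)

/-- `1 + sum_k b_k z^{k+1}`. -/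
def Gser {R : Type} [CommRing R] (b : ℕ → R) : PowerSeries R :=
  1 + PowerSeries.X * PowerSeries.mk b

/-- the pairing `sum_k p_k f_k` of a polynomial and a sequence. -/
def pair {R : Type} [AddCommGroup R] [Module ℂ R] (p : Polynomial ℂ) (f : ℕ → R) : R :=
  p.sum fun k c => c • f k

theorem pair_eq_range {R : Type} [AddCommGroup R] [Module ℂ R] (p : Polynomial ℂ) (f : ℕ → R) :
    pair p f = ∑ k ∈ Finset.range (p.natDegree + 1), p.coeff k • f k := by
  rw [pair, Polynomial.sum_over_range]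
  intro n
  rw [zero_smul]

theorem pair_add {R : Type} [AddCommGroup R] [Module ℂ R] (p p' : Polynomial ℂ) (f : ℕ → R) :
    pair (p + p') f = pair p f + pair p' f := by
  rw [pair, pair, pair, Polynomial.sum_add_index]
  · intro i; rw [zero_smul]
  · intro i a b; rw [add_smul]

theorem pair_smul {R : Type} [AddCommGroup R] [Module ℂ R] (c : ℂ) (p : Polynomial ℂ) (f : ℕ → R) :
    pair (c • p) f = c • pair p f := by
  rw [pair, Polynomial.sum_smul_index' p c (fun k c => c • f k) (fun i => zero_smul _ _), pair,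
    Polynomial.sum, Polynomial.sum, Finset.smul_sum]
  exact Finset.sum_congr rfl fun i _ => by rw [smul_eq_mul, mul_smul]

theorem pair_add_right {R : Type} [AddCommGroup R] [Module ℂ R] (p : Polynomial ℂ)
    (f g : ℕ → R) : pair p (fun k => f k + g k) = pair p f + pair p g := by
  simp only [pair_eq_range, smul_add, Finset.sum_add_distrib]

theorem pair_monomial {R : Type} [AddCommGroup R] [Module ℂ R] (n : ℕ) (c : ℂ) (f : ℕ → R) :
    pair (Polynomial.monomial n c) f = c • f n := by
  rw [pair, Polynomial.sum_monomial_index]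
  rw [zero_smul]

/-- `(1 - z^l)^K F` is a polynomial of degree at most `l K`. -/
def Good {R : Type} [CommRing R] (l K : ℕ) (F : PowerSeries R) : Prop :=
  ∃ P : Polynomial R, P.natDegree ≤ l * K ∧
    (P : PowerSeries R) = (1 - PowerSeries.X ^ l) ^ K * F

end Series

/-- the properties of the block idempotents. -/
structure IsBl (N l : ℕ) [NeZero l] (q : ℂ) (hl : l ≠ 0) (s : ℕ → ℂˣ)
    (e : (ZMod l → ℤ) → A N l q) : Prop where
  cen : ∀ m a, e m * a = a * e m
  idem : ∀ m, e m * e m = e m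
  orth : ∀ m m', m ≠ m' → e m * e m' = 0
  out : ∀ m, m ∉ typs N l → e m = 0
  sum : ∑ m ∈ typs N l, e m = 1
  fix : ∀ m, tor N l q hl s (e m) = e m
  act : ∀ (M : Type) [AddCommGroup M] [Module ℂ M] [Module (A N l q) M]
    [IsScalarTower ℂ (A N l q) M] (lam : Fin (N + 1) → ZMod l) (v : M) (m : ZMod l → ℤ),
    Sing q lam v → e m • v = if ty lam = m then v else 0

end

end Pool.Agent.Helper41.SQ
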