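import Pool.Agent.Helper24.SQ.EVAL
import Pool.Agent.Helper24.SQ.XLAY
import Pool.Agent.Helper24.SQ.DL
import Pool.Agent.Helper28.SQ.BUNIQ
import Pool.Agent.Helper28.SQ.CH1
import Pool.Agent.Helper28.SQ.DVD_DVE_XNIL
import Pool.Agent.Helper28.SQ.FOUR
import Pool.Agent.Helper28.SQ.GDER
import Pool.Agent.Helper28.SQ.NU
import Pool.Agent.Helper41.SQ.BL1
import Pool.Agent.Helper41.SQ.DVG
import Pool.Agent.Helper41.SQ.IDEM
import Pool.Agent.Helper41.SQ.QS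
import Pool.Agent.Helper41.SQ.CORE
import Pool.Agent.Helper44.SQ.DLABS
import Pool.Agent.Helper53.SQ.CH2
import Pool.Agent.Helper53.SQ.GOOD
import Pool.Agent.Helper53.SQ.SPEC
import Pool.Agent.Helper53.SQ.PC
import Pool.Agent.Helper69.SQ.BDER
import Pool.Agent.Helper69.SQ.BEVAL
import Pool.Agent.Helper69.SQ.CHARV
import Pool.Agent.Helper69.SQ.NILS
import Pool.Agent.Helper69.SQ.TYP
import Pool.Agent.Helper85.SQ.NILC
import Pool.Agent.Helper86.SQ.BINV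
import Pool.Agent.Helper86.SQ.NILP

/-!
Project SQ (MP_bb32d1_al), helper41: sections 8 and 9 from the goals of the other sections.
-/

set_option autoImplicit false

namespace Pool.Agent.Helper41.SQ

open Pool.Agent.Helper19.SQ Pool.Agent.Helper34.SQ

/-- sections 8 and 9 (`S_CORE`) from the goals of sections 4 to 7 and of the abstract part. -/
theorem part_b (h0 : S_CORE0) (hTR : S_TR) (hHC : S_HC) (hFL : S_FL) (hLAYA : S_LAYA)
    (hLAYX : S_LAYX) (hLAYS : S_LAYS) (hHARM : S_HARM) (hZ : S_ZUNIV) (hGENV : S_GENV)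
    (hGENVS : S_GENVS) (hSV : S_SV) (hFD : S_FDIM) (hCUP0 : S_CUP0) (hCUP1 : S_CUP1) : S_CORE := by
  have hXLAY : S_XLAY := Helper24.SQ.b_xlay hLAYX
  have hCH1 : S_CH1 := Helper28.SQ.b_ch1 hFL hLAYA hXLAY hHARM hZ hGENV hCUP0 hFD
    Helper69.SQ.b_charv
  have hCH2 : S_CH2 := Helper53.SQ.b_ch2 hFL hLAYS hHARM hZ hGENVS hCUP1 hFD Helper69.SQ.b_charv
  have hTY : S_TYP := Helper69.SQ.b_typ
  have hEV : S_EVAL := Helper24.SQ.b_eval h0 hTR hHC hCH1 hCH2 hHARM hZ hFD hTY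
  have hBE : S_BEVAL := Helper69.SQ.b_beval h0 hHC hEV
    (Helper28.SQ.b_buniq Helper28.SQ.b_gder Helper69.SQ.b_bder)
  have hNC : S_NILC := Helper85.SQ.b_nilc hSV hFD
  have hDL : S_DLABS := Helper44.SQ.b_dlabs Helper28.SQ.b_gder Helper69.SQ.b_bder
    Helper86.SQ.b_binv Helper53.SQ.b_good Helper28.SQ.b_nu Helper69.SQ.b_nils
  have hDVG : S_DVG := b_dvg hSV
  have hDVD : S_DVD := Helper28.SQ.b_dvd hDVG hGENV hCUP0
  have hDVE : S_DVE := Helper28.SQ.b_dve hDVG hGENVS hCUP1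
  exact s_core h0 hEV hBE
    (b_idem Helper53.SQ.b_spec Helper28.SQ.b_four hNC hFD hTY)
    (Helper86.SQ.b_nilp hNC)
    (Helper28.SQ.b_xnil hDVD hXLAY hFD)
    Helper53.SQ.b_pc
    (b_bl1 hDVD hXLAY hLAYA hTY b_qs hFD)
    (b_bl2 hDVE hLAYS hTY b_qs hFD)
    (Helper24.SQ.b_dl h0 hDL hFD)

end Pool.Agent.Helper41.SQ
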