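import Pool.Agent.Helper41.SQ.NBasic
import Pool.Agent.Helper54.SQ.SW
import Pool.Agent.Helper28.SQ.KILL
import Pool.Agent.Helper93.SQ.ST

/-!
Project SQ (MP_bb32d1_al), stage B, part (1) up to VAN+: goals, with complete proofs in the
doc-strings.  Definitions: `Pool/Agent/Helper41/SQ/NBasic.lean`.

OVERVIEW.  `Sd` = one side (`D = delta` or `eps`, operator `X`, crossing `R`).  Closing `j` strands:
for a trace `τ` and `x : A`, `θ(Z) = τ(Tr(Z H(x)))`, `H = D^j = (tow S j).H`, is a trace on the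
centralizer of `H(A)`.  It vanishes on the polynomials in the `X_i` (POL), so by the cocenter lemma
(COC) on `X_0^k R_0 ... R_{j-1}`, and this is the closure of the chain of functionals `sge` (SGF,
CLF, SGE, SIDE).  The two sides `eps` (SDE) and `delta` (SDF) are instances of `Sd`.  With ST+
(STP1, STP2) the chain gives VAN+ (VANE, VANF).
-/

set_option autoImplicit false
set_option linter.unusedSectionVars false

namespace Pool.Agent.Helper41.SQ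

noncomputable section

open Matrix Pool.Agent.Helper19.SQ Pool.Agent.Helper34.SQ

/-! ### the cocenter lemma -/

/-- **RUN**.

PROOF. `W = R_0 ... R_{p-2} = run R 0 (p-1)`, `W_r = run R 0 r * run R (r+1) (p-2-r)` (`R_r` removed).
Relations: `R_r X_r = X_{r+1} R_r + w X_r` and `R_r X_{r+1} = X_r R_r - w X_r` (from
`X_r = R_r X_{r+1} R_r` and `R_r (R_r - w) = 1`).
(*) `θ(f X_r W) = θ(f X_{r+1} W)` for `r ≤ p-2` and every monomial `f`: `X_r` commutes with `R_i`,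
`i > r`, `X_{r+1}` with `R_i`, `i < r`, so `W X_r = R_0..R_{r-1} (R_r X_r) R_{r+1}.. =
X_{r+1} W + w R_0..R_{r-1} X_r R_{r+1}.. = X_{r+1} W + w W_r X_r`.  `θ(f W X_r) = θ(X_r f W)`,
`θ(f W_r X_r) = θ(X_r f W_r) = 0` (the hypothesis, `X_r f` is a monomial).
So it is enough to show `t := θ(X_{p-1}^K W) = 0` for all `K`.  `K ≥ 1`:
`W R_{p-2} = W_{p-2} R_{p-2}^2 = W_{p-2} + w W`, so `θ(X_{p-1}^K W R_{p-2}) = w t`.  It is
`θ(R_{p-2} X_{p-1}^K W)`.  `R_r X_{r+1}^K = X_r^K R_r - w ∑_{s<K} X_r^{K-s} X_{r+1}^s` (induction on `K`),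
and by (*) `θ(X_r^{K-s} X_{r+1}^s W) = t`, so with `u_r = θ(X_r^K R_r W)`: `w t = u_{p-2} - w K t`.
For `1 ≤ r ≤ p-2`: `R_r W = W R_{r-1}` (far commutations and the braid relation
`R_r R_{r-1} R_r = R_{r-1} R_r R_{r-1}`), so `u_r = θ(X_r^K W R_{r-1}) = θ(R_{r-1} X_r^K W) =
u_{r-1} - w K t`.  `R_0 W = R_0^2 R_1 .. = W_0 + w W`, so `u_0 = w θ(X_0^K W) = w t` by (*) and the
hypothesis.  Hence `w t = w t - (p-1) w K t`, so `t = 0`.  `K = 0`: `1 = g(X_{p-1})` is a combination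
of the `X_{p-1}^K`, `K ≥ 1`. -/
def S_RUN : Prop :=
  ∀ (B : Type) [Ring B] [Algebra ℂ B] (θ : B →ₗ[ℂ] ℂ) (S : Subalgebra ℂ B) (w : ℂ) (p : ℕ)
    (X R : ℕ → B), HeckeRel w p X R → w ≠ 0 → 2 ≤ p →
    (∀ i, i < p → X i ∈ S) → (∀ i, i + 1 < p → R i ∈ S) →
    (∀ a ∈ S, ∀ b ∈ S, θ (a * b) = θ (b * a)) →
    (∀ i, i < p → ∃ g : Polynomial ℂ, g.coeff 0 = 0 ∧ Polynomial.aeval (X i) g = 1) →
    (∀ r, r + 1 < p → ∀ k : ℕ → ℕ,
      θ (mono X k p * (run R 0 r * run R (r + 1) (p - 2 - r))) = 0) →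
    ∀ k : ℕ → ℕ, θ (mono X k p * run R 0 (p - 1)) = 0

/-- **COC** (cocenter lemma).

PROOF (from RUN). Strong induction on `p` (for all `B, θ, S, X, R`).  `p = 1`: hypothesis.  `p ≥ 2`: by
RUN it is enough that `θ(mono X k p * (run R 0 r * run R (r+1) (p-2-r))) = 0`, `r ≤ p-2`.
`mono X k p = f₁ f₂`, `f₁ = mono X k (r+1)`, `f₂ = run (X^k) (r+1) (p-1-r)`, and `f₂` commutes with
`R_0 .. R_{r-1}`; put `Y = f₂ * run R (r+1) (p-2-r)`.  `Y` commutes with `X_i`, `i ≤ r`, and `R_i`,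
`i < r`.  Apply COC for `r+1 < p` strands to `θ'(Z) = θ(Z Y)`, `S' = S ⊓ centralizer {Y}` (it is a
trace there: `θ(a b Y) = θ(a Y b) = θ(b a Y)`).  The hypothesis: `θ(f₁' Y) = 0` for every monomial
`f₁'` in `X_0..X_r`.  It is COC for `p-1-r < p` strands, `X''_i = X_{r+1+i}`, `R''_i = R_{r+1+i}`,
`θ''(Z) = θ(f₁' Z)`, `S'' = S ⊓ centralizer {f₁'}`; `θ''` of a monomial is `θ` of a monomial. -/
def S_COC : Prop :=
  ∀ (B : Type) [Ring B] [Algebra ℂ B] (θ : B →ₗ[ℂ] ℂ) (S : Subalgebra ℂ B) (w : ℂ) (p : ℕ)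
    (X R : ℕ → B), HeckeRel w p X R → w ≠ 0 → 1 ≤ p →
    (∀ i, i < p → X i ∈ S) → (∀ i, i + 1 < p → R i ∈ S) →
    (∀ a ∈ S, ∀ b ∈ S, θ (a * b) = θ (b * a)) →
    (∀ i, i < p → ∃ g : Polynomial ℂ, g.coeff 0 = 0 ∧ Polynomial.aeval (X i) g = 1) →
    (∀ k : ℕ → ℕ, θ (mono X k p) = 0) →
    ∀ k : ℕ → ℕ, θ (mono X k p * run R 0 (p - 1)) = 0

/-! ### the tower -/

/-- **TOWS** (one more outer strand).

PROOF. Write `H' = nH S H`, `X' = nX S H X`, `R' = nR r R`, `r' = lfR A κ S.R`.  Facts: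
(a) `PhG H M` commutes with `bdG ι Z` if `Z` commutes with all `H a` (entries: `(H(M_ac) Z)_PQ`).
(b) `Ps3 H` is an algebra map and `r' = Ps3 H (sc A S.R)`, `PhG H' M = Ps3 H (Phi S.D M)`,
`bdG ι (PhG H M) = Ps3 H (X1 M)` (NBasic: `Ps3_sc`, `Ps3_Phi`, `Ps3_X1`).
(c) `r'` commutes with `bdG ι (bdG ι Z)` for every `Z` (entries; the entries of `r'` are scalars).
`rel`: XX: for `0, k+1`: (a) and `cX`; for `i+1, k+1`: `bdG` is an algebra map.  quad: `i = 0`: `rr`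
(`1 ≤ j`); slide: `i = 0`: `Xr`; RX: `R'_0 = r` and `X'_(k+1) = bdG X_k`, `k ≥ 1`: `rX`;
`R'_(i+1) = bdG R_i` and `X'_0 = PhG H X`: (a) and `cR`; far: `R'_0` and `R'_(k+1)`, `k ≥ 1`: `rR`;
braid: `i = 0`: `br1`.  In all cases the other indices are `bdG` of the relations of level `j`.
`cX`: `X'_0 = PhG H S.X` commutes with `H' a = PhG H (S.D a)` (`XD`), `X'_(i+1)` by (a), `cX`.  `cR`:
`R'_0 = r`: `cr`; `R'_(i+1)`: (a), `cR`.  `inv`: `Polynomial.aeval_algHom_apply` for `PhG H`, `bdG`.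
`cr`: `r' * PhG H' (S.D a) = Ps3 H (sc R * Phi D (D a))`: `RD`.  `rr`: `Ps3 H` of `RR` (`sc_mul`).  `Xr`:
`Ps3 H` of `XX` (`X'_0 = PhG H S.X`).  `rX`, `rR`: (c) (`i ≥ 1`).  `br1` (`1 ≤ j`): this is `br2` of
level `j` (`R'_0 = r`).  `br2`: `lfR A (ι × κ) S.R` and `bdG ι (lfR A κ S.R)` are the images of
`r12 S.R` and `r23 S.R` under the algebra map `Matrix (ι×(ι×ι)) _ ℂ → Matrix (ι×(ι×(ι×κ))) _ A`
with entry `if x.2.2.2 = y.2.2.2 then algebraMap (M (x.1,x.2.1,x.2.2.1) (y.1,y.2.1,y.2.2.1)) else 0`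
(check multiplicativity by `Matrix.mul_apply`, `Fintype.sum_prod_type`); use `S.br`. -/
def S_TOWS : Prop :=
  ∀ (A : Type) [Ring A] [Algebra ℂ A] (ι κ : Type) [Fintype ι] [DecidableEq ι] [Fintype κ]
    [DecidableEq κ] (S : Sd A ι) (H : A →ₐ[ℂ] Matrix κ κ A) (X R : ℕ → Matrix κ κ A)
    (r : Matrix (ι × κ) (ι × κ) A) (j : ℕ), GoodL S H X R r j →
    GoodL S (nH S H) (nX S H X) (nR r R) (lfR A κ S.R) (j + 1)

/-- **TOW**.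

PROOF (from TOWS). Induction on `j`.  Level 0: `X = R = r = 1`, all other fields are vacuous.  Step:
`tow S (j+1)` is by definition the next level of `tow S j`. -/
def S_TOW : Prop :=
  ∀ (A : Type) [Ring A] [Algebra ℂ A] (ι : Type) [Fintype ι] [DecidableEq ι] (S : Sd A ι)
    (j : ℕ), GoodL S (tow S j).H (tow S j).X (tow S j).R (tow S j).r j

/-- **SGF** (closed formula for the functionals).

PROOF. Induction on `j`.  `j = 0`: `run .. 0 0 = 1`, `nH S H₀ b (a,()) (d,()) = S.D b a d`.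
Step, `L = tow S j`, `Ξ = run (nR L.r L.R) 0 j`.  At level `j+1`: `nR r' R'` with `r' = lfR A L.κ S.R`,
`R' = nR L.r L.R`; `run (nR r' R') 0 (j+1) = r' * run (fun i => bdG ι (R' i)) 0 j = r' * bdG ι Ξ`
(`run_succ_left`, `run_shift`, `run_map`).  Its entry at `((a,(x,K)), (k,P))` is
`∑_y R_(a,x),(k,y) Ξ_((y,K),P)`, and `nH S (nH S L.H) b (k,P) (p,(x,K)) = nH S L.H (S.D b k p) P (x,K)`.
So the right hand side at `(p,a)` is `∑_(x,K) τ(∑_(k,P,y) R_(a,x),(k,y) Ξ_((y,K),P)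
(nH S L.H (S.D b k p))_(P,(x,K))) = ∑_(k,x,y) R_(a,x),(k,y) ∑_K τ((Ξ * nH S L.H (S.D b k p)) (y,K) (x,K))`,
which is `∑ R_(a,x),(k,y) sge j x y (S.D b k p)` by induction.  (It may be convenient to prove the
step for a general level `H, r, R` and an arbitrary `Ξ`.) -/
def S_SGF : Prop :=
  ∀ (A : Type) [Ring A] [Algebra ℂ A] (ι : Type) [Fintype ι] [DecidableEq ι] (S : Sd A ι)
    (τ : A →ₗ[ℂ] ℂ) (j : ℕ) (d a : ι) (b : A),
    sge S τ (fun _ => 1) j d a b =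
      ∑ K, τ ((run (nR (tow S j).r (tow S j).R) 0 j * nH S (tow S j).H b) (a, K) (d, K))

/-- **CLF** (closure of the chain).

PROOF (from TOW, SGF). `L = tow S j`, `H = L.H`, `Ξ = run (nR L.r L.R) 0 j`, `H' = nH S H`.  By TOW at
level `j+1` (`cR`) `Ξ` commutes with `H' y` (`run_commute`).  By SGF the left hand side is
`∑_(p,i,K) τ((Ξ H'(z_pi x)) (i,K) (p,K)) = ∑_(p,i,K) τ((H'(z_pi) Ξ H'(x)) (i,K) (p,K))
= ∑_(p,i,K,r,Q) τ(H(D(z_pi)_ir)_KQ (Ξ H'(x)) (r,Q) (p,K))`.  By `S.zX`, `∑_i D(z_pi)_ir = (X^k)_pr`, so it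
is `∑_(p,K,r,Q) τ(H((X^k)_pr)_KQ (Ξ H'(x)) (r,Q) (p,K)) = τ(Tr(PhG H (X^k) Ξ H'(x)))`, and
`PhG H (X^k) = (PhG H X)^k = (nX S H L.X 0)^k`. -/
def S_CLF : Prop :=
  ∀ (A : Type) [Ring A] [Algebra ℂ A] (ι : Type) [Fintype ι] [DecidableEq ι] (S : Sd A ι)
    (τ : A →ₗ[ℂ] ℂ) (j k : ℕ) (x : A),
    ∑ p, ∑ i, sge S τ (fun _ => 1) j p i (S.z k p i * x) =
      τ (Matrix.trace ((nX S (tow S j).H (tow S j).X 0) ^ k *
        run (nR (tow S j).r (tow S j).R) 0 j * nH S (tow S j).H x))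

/-! ### weights -/

/-- **WT**.

PROOF. Induction on `j`.  `j = 0`: the only entry is `e m' * e m = 0` (`orth`, as `h m < h m'`).
`j + 1`: the entry at `((k,P),(p,Q))` is `H(D(e m')_kp)_PQ e_m = ∑_(m'' ∈ types)
(H(D(e m')_kp e_m''))_PQ e_m` (`sum`) `= ∑_m'' (H(D(e m')_kp e_m'') (H(e_m'') diag(e_m)))_PQ` (`e_m''` is
idempotent).  If `D(e m')_kp e_m'' ≠ 0` then by `bl`, `hβ`: `h m' ≤ h m'' + 1`, so `h m + j < h m''` and
the term is `0` by induction. -/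
def S_WT : Prop :=
  ∀ (A : Type) [Ring A] [Algebra ℂ A] (ι : Type) [Fintype ι] [DecidableEq ι] (S : Sd A ι)
    (l : ℕ) (e : (ZMod l → ℤ) → A) (types : Finset (ZMod l → ℤ)) (h : (ZMod l → ℤ) →+ ℤ)
    (β : ZMod l → ℤ), Blk S l e types h β → ∀ (j : ℕ) (m m' : ZMod l → ℤ),
    h m + j < h m' → (tow S j).H (e m') * Matrix.diagonal (fun _ => e m) = 0

/-- **POL** (closures with polynomials vanish).

PROOF (from TOW, WT).  (1) For a level `H, X` and `Z` commuting with all `H a`: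
`Tr(PhG H M * bdG ι Z * nH S H y) = Tr(Z * H(Tr(M * S.D y)))` in `A`: the left hand side is
`∑_(a,c) Tr(H(M_ac) Z H(D(y)_ca)) = ∑_(a,c) Tr(Z H(M_ac) H(D(y)_ca))`.
(2) `mono (nX S H X) k (j+2) = PhG H (S.X ^ k 0) * bdG ι (mono X (fun i => k (i+1)) (j+1))`
(`run_succ_left`, `run_shift`, `run_map`).
(3) Induction on `j`.  `j = 0`: level 1 is the next level of level 0; by (1) with `Z = 1` the value is
`τ(Tr(S.X ^ k 0 * S.D(x e_(m+β)))) = 0`.  `j + 1`: `Z = mono X k' (j+1)` at level `j+1` commutes with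
all `H a` (TOW `cX`, `run_commute`).  By (1), (2) the value is `τ(Tr(Z H(y)))`,
`y = Tr(S.X^(k 0) * S.D(x e_(m+(j+2)β)))`, and `y = ∑_(m' ∈ types) y e_m'`.  `y e_m' = 0` unless
`D(e_(m+(j+2)β)) diag(e_m') ≠ 0`, i.e. (`bl`) `h m + j + 2 < h m' + 1` or `m' = m + (j+1)β`.  In the second
case `τ(Tr(Z H(y e_m'))) = 0` by induction.  In the first case `h m + (j+1) < h m'`, so
`H(e_m') diag(e_m) = 0` (WT) and `τ(Tr(Z H(y e_m'))) = τ(Tr(Z H(y) H(e_m')) e_m) = 0`. -/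
def S_POL : Prop :=
  ∀ (A : Type) [Ring A] [Algebra ℂ A] (ι : Type) [Fintype ι] [DecidableEq ι] (S : Sd A ι)
    (l : ℕ) (e : (ZMod l → ℤ) → A) (types : Finset (ZMod l → ℤ)) (h : (ZMod l → ℤ) →+ ℤ)
    (β : ZMod l → ℤ), Blk S l e types h β → ∀ (τ : A →ₗ[ℂ] ℂ) (m : ZMod l → ℤ),
    (∀ x, τ (x * e m) = τ x) →
    (∀ k x, τ (Matrix.trace (S.X ^ k * S.D (x * e (m + β)))) = 0) →
    ∀ (j : ℕ) (k : ℕ → ℕ) (x : A),
      τ (Matrix.trace (mono (tow S (j + 1)).X k (j + 1) *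
        (tow S (j + 1)).H (x * e (m + (j + 1) • β)))) = 0

/-- **SGE** (the idempotents inside the chain may be omitted).

PROOF (from SGF, WT). `E j = e (m + (j+1) β)`.  Induction on `j`; `j = 0` is clear.  `j + 1`: by
induction `sge E (j+1) p a b = ∑ R_(a,x),(k,y) sge 1 j x y (Y E_j)`, `Y = D(b E_(j+1))_kp`, and
`sge 1 (j+1) p a (b E_(j+1)) = ∑ R_(a,x),(k,y) sge 1 j x y Y`.  `Y = ∑_(m' ∈ types) Y e_m'` and `sge 1 j x y`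
is additive (SGF), so it is enough that `sge 1 j x y (Y e_m') = 0` for `m' ≠ m + (j+1)β`.  If `Y e_m' ≠ 0`
then (`bl`) `h m + (j+2) < h m' + 1`, i.e. `h m + (j+1) < h m'`.  By SGF the value is
`∑_K τ((Ξ nH(Y) nH(e_m')) (y,K) (x,K))`, `nH S (tow S j).H = (tow S (j+1)).H`; inserting `e_m`
(`τ(x e_m) = τ(x)`) it is `0` by WT at level `j+1`. -/
def S_SGE : Prop :=
  ∀ (A : Type) [Ring A] [Algebra ℂ A] (ι : Type) [Fintype ι] [DecidableEq ι] (S : Sd A ι)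
    (l : ℕ) (e : (ZMod l → ℤ) → A) (types : Finset (ZMod l → ℤ)) (h : (ZMod l → ℤ) →+ ℤ)
    (β : ZMod l → ℤ), Blk S l e types h β → ∀ (τ : A →ₗ[ℂ] ℂ) (m : ZMod l → ℤ),
    (∀ x, τ (x * e m) = τ x) → ∀ (j : ℕ) (d a : ι) (b : A),
      sge S τ (fun j => e (m + (j + 1) • β)) j d a b =
        sge S τ (fun _ => 1) j d a (b * e (m + (j + 1) • β))

/-- **SIDE**.

PROOF (from COC, TOW, CLF, POL, SGE). By SGE and CLF the sum is
`τ(Tr(X'_0^k * run R' 0 j * H'(x e_(m+(j+1)β))))`, with `X' = (tow S (j+1)).X = nX ..`,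
`R' = (tow S (j+1)).R = nR ..`, `H' = (tow S (j+1)).H = nH ..`.  Let `B = Matrix _ _ A` (index
`(tow S (j+1)).κ`), `θ(Z) = τ(Tr(Z H'(x e)))`, and the subalgebra
`Subalgebra.centralizer ℂ (Set.range H')`; for `a, b` in it
`θ(a b) = τ(Tr(a b H'(xe))) = τ(Tr(b H'(xe) a)) = τ(Tr(b a H'(xe))) = θ(b a)` (`trace_comm_of_tr`).
COC with `p = j+1`; relations, `inv` from TOW at level `j+1`, memberships from `cX`, `cR`, the
hypothesis on monomials is POL; and `mono X' (fun i => if i = 0 then k else 0) (j+1) = X'_0^k`. -/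
def S_SIDE : Prop :=
  ∀ (A : Type) [Ring A] [Algebra ℂ A] (ι : Type) [Fintype ι] [DecidableEq ι] (S : Sd A ι)
    (l : ℕ) (e : (ZMod l → ℤ) → A) (types : Finset (ZMod l → ℤ)) (h : (ZMod l → ℤ) →+ ℤ)
    (β : ZMod l → ℤ), Blk S l e types h β → ∀ (τ : A →ₗ[ℂ] ℂ) (m : ZMod l → ℤ),
    (∀ x y, τ (x * y) = τ (y * x)) → (∀ x, τ (x * e m) = τ x) →
    (∀ k x, τ (Matrix.trace (S.X ^ k * S.D (x * e (m + β)))) = 0) →
    ∀ (j k : ℕ) (x : A),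
      ∑ p, ∑ i, sge S τ (fun j => e (m + (j + 1) • β)) j p i (S.z k p i * x) = 0

/-! ### the two sides -/

/-- **DPV**.

PROOF. `yHs(b)_JI = ∑_P Hs(H(y)_PJ b)_PI` (cap).  (1) `(vv Z * Hs a)_QI = ∑_P Hs(Z_PQ a)_PI`.
`(Hs a * vv Z)_QI = ∑_(J,P) Hs(a)_QJ Hs(Z_PJ)_PI = ∑_(J,P,P') Hs(H(Hs(a)_QJ)_P'P Z_PJ)_P'I =
∑_(J,P') Hs((H(Hs(a)_QJ) Z)_P'J)_P'I = ∑_(J,P',R) Hs(Z_P'R H(Hs(a)_QJ)_RJ)_P'I`, and
`∑_J H(Hs(a)_QJ)_RJ = [Q = R] a` (cup), so it is `∑_P' Hs(Z_P'Q a)_P'I`.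
(2) `(vv (Z Z'))_KI = ∑_(P,Q) Hs(Z_PQ Z'_QK)_PI = ∑_(P,Q,J) Hs(Z_PQ)_PJ Hs(Z'_QK)_JI =
∑_Q (vv Z * Hs(Z'_QK))_QI = ∑_Q (Hs(Z'_QK) * vv Z)_QI = (vv Z' * vv Z)_KI`.
(3) `(vv 1)_KI = Hs(1)_KI`; (4) `∑_P M_PK Hs(1)_PI = M_IK`. -/
def S_DPV : Prop :=
  ∀ (A : Type) [Ring A] [Algebra ℂ A] (κ : Type) [Fintype κ] [DecidableEq κ]
    (H Hs : A →ₐ[ℂ] Matrix κ κ A), IsDP H Hs →
    (∀ Z : Matrix κ κ A, (∀ a, Z * H a = H a * Z) → ∀ a, vv Hs Z * Hs a = Hs a * vv Hs Z) ∧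
    (∀ Z : Matrix κ κ A, (∀ a, Z * H a = H a * Z) → ∀ Z', vv Hs (Z * Z') = vv Hs Z' * vv Hs Z) ∧
    vv Hs 1 = 1 ∧ ∀ M : Matrix κ κ ℂ, vv Hs (sc A M) = sc A Mᵀ

/-- the dual of `delta delta` (in the order of `V (x) V`). -/
def Hs2 {A : Type} [Ring A] [Algebra ℂ A] {ι : Type} [Fintype ι] [DecidableEq ι]
    (C : Core0 A ι) : A →ₐ[ℂ] Matrix (ι × ι) (ι × ι) A :=
  (Matrix.reindexAlgEquiv ℂ A (Equiv.prodComm ι ι)).toAlgHom.comp ((Phi C.ε).comp C.ε)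

theorem Hs2_apply {A : Type} [Ring A] [Algebra ℂ A] {ι : Type} [Fintype ι] [DecidableEq ι]
    (C : Core0 A ι) (a : A) (x y : ι × ι) :
    Hs2 C a x y = C.ε (C.ε a x.2 y.2) x.1 y.1 := rfl

/-- **DP2**.

PROOF. (1) is `cap0`, `cup0`.  (2) cap: `∑_(P,p) ε(ε(δ(δ(a)_Pk')_pk)_pi)_PI` with the rows `(P,p)`,
columns `(k',k)` and `(I,i)`: the sum over `p` is `[i = k] δ(a)_Pk'` (cap0, inside `ε`, `map_sum`), then
the sum over `P` is `[I = k'] a`.  cup: `∑_(I,i) δ(δ(ε(ε(a)_ji)_JI)_PI)_pi`: the sum over `I` (inside the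
outer `δ`) is `[J = P] ε(a)_ji` (cup0), then over `i`: `[j = p] a`.  (3) `∑_(p1,p2)
ε(ε(δ(M_(p1,k1))_(p2,k2))_(p2,i2))_(p1,i1)`: cap0 for the sum over `p2`.  (4)
`∑_(p1,p2) [p1 = k1] ε(ε(M_(p2,k2))_(p2,i2))_(p1,i1)`. -/
def S_DP2 : Prop :=
  ∀ (A : Type) [Ring A] [Algebra ℂ A] (ι : Type) [Fintype ι] [DecidableEq ι] (C : Core0 A ι),
    IsDP C.δ C.ε ∧ IsDP ((Phi C.δ).comp C.δ) (Hs2 C) ∧
    (∀ (M : Matrix ι ι A) (K I : ι × ι), vv (Hs2 C) (Phi C.δ M) K I =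
      if K.2 = I.2 then vv C.ε M K.1 I.1 else 0) ∧
    ∀ (M : Matrix ι ι A) (K I : ι × ι), vv (Hs2 C) (X1 M) K I = C.ε (vv C.ε M K.2 I.2) K.1 I.1

/-- `RE T (a,b) (c,d) = T (b,d) (a,c)`. -/
def RE {ι : Type} (T : Matrix (ι × ι) (ι × ι) ℂ) : Matrix (ι × ι) (ι × ι) ℂ :=
  Matrix.of fun x y => T (x.2, y.2) (x.1, y.1)

/-- `flT M (a,b) (c,d) = M (d,c) (b,a)`: transpose and flip both factors. -/
def flT {ι : Type} (M : Matrix (ι × ι) (ι × ι) ℂ) : Matrix (ι × ι) (ι × ι) ℂ :=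
  Matrix.of fun x y => M (y.2, y.1) (x.2, x.1)

/-- **REL** (the crossing of the other side).

PROOF. `RE T = flT (Sc - ω)` by the hypothesis.  `flT (M * M') = flT M' * flT M`, `flT 1 = 1`, `flT` is
linear.  `(Sc - ω)^2 = 1 - ω (Sc - ω)` and `(Sc - ω) Sc = 1 = Sc (Sc - ω)` from the quadratic
relation.  Braid: with `B = Sc - ω` the inverse of `Sc`, `r12 B`, `r23 B` are the inverses of `r12 Sc`,
`r23 Sc` (`r12`, `r23` are multiplicative, `r12 1 = 1`), so `B` satisfies the braid relation; and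
`r12 (flT B) = F (r23 B)`, `r23 (flT B) = F (r12 B)` with `F M (a,(b,c)) (a',(b',c')) =
M (c',(b',a')) (c,(b,a))`, `F (M M' M'') = F M'' F M' F M`. -/
def S_REL : Prop :=
  ∀ (ι : Type) [Fintype ι] [DecidableEq ι] (Sc T : Matrix (ι × ι) (ι × ι) ℂ) (ω : ℂ),
    Sc * Sc = 1 + ω • Sc →
    (∀ a b c d, T (b, d) (a, c) = (Sc - ω • (1 : Matrix (ι × ι) (ι × ι) ℂ)) (d, c) (b, a)) →
    RE T = flT (Sc - ω • (1 : Matrix (ι × ι) (ι × ι) ℂ)) ∧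
    RE T * RE T = 1 + (-ω) • RE T ∧ RE T * flT Sc = 1 ∧ flT Sc * RE T = 1 ∧
    (r12 Sc * r23 Sc * r12 Sc = r23 Sc * r12 Sc * r23 Sc →
      r12 (RE T) * r23 (RE T) * r12 (RE T) = r23 (RE T) * r12 (RE T) * r23 (RE T))

/-- **SDE** (the side `eps`).

PROOF (from DPV, DP2, REL). `D = ε`, `X = Xv := vv ε X`, `R = RE T`, `w = -ω`, `z k a p = (X^k)_pa`.
`XD`: DPV for `(δ, ε)`, `Xδ`.  Powers: `X^k` commutes with `δ(A)`, so `(vv ε X)^k = vv ε (X^k)` (DPV (2),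
induction), hence `pev g Xv = vv ε (pev g X)` (`vv` is linear), `inv`; and `zX` is the definition of
`vv ε (X^k)`.  `RR`, `br`: REL.
Rank 2: `H₂ a = Phi δ (δ a)`; `Hs₂ a x y = Phi ε (ε a) (x.2,x.1) (y.2,y.1)`.  `sc Sc` commutes with
`H₂(A)` (`ScD`), so `vv (sc (Sc - ω)) = sc (Sc - ω)ᵀ` commutes with `Hs₂(A)` (DPV (1), (4)); flipping
the two factors in rows and columns: `sc (flT (Sc - ω)) = sc (RE T)` commutes with `Phi ε (ε a)`: `RD`.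
`X1 X` commutes with `H₂(A)` (entries: `X δ(..) = δ(..) X`).  Apply `vv` to `ScX`, DPV (2):
`vv (Phi δ X) = sc Scᵀ * vv (X1 X) * sc Scᵀ`.  By DP2 `vv (Phi δ X)` is the flip of `X1 Xv` and `vv (X1 X)`
is the flip of `Phi ε Xv` (`flip M x y = M (x.2,x.1) (y.2,y.1)`, multiplicative).  So
`X1 Xv = sc (flT Sc) * Phi ε Xv * sc (flT Sc)`, and multiplying by `sc (RE T)` on both sides (REL):
`Phi ε Xv = sc (RE T) * X1 Xv * sc (RE T)`: `XX`. -/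
def S_SDE : Prop :=
  ∀ (A : Type) [Ring A] [Algebra ℂ A] (ι : Type) [Fintype ι] [DecidableEq ι] (C : Core0 A ι)
    (_ : CoreP C), ∃ S : Sd A ι, S.D = C.ε ∧ S.X = vv C.ε C.X ∧ S.R = RE C.T ∧
      S.z = fun k a p => (C.X ^ k) p a

/-- **SDF** (the side `delta`).

PROOF. `D = δ`, `X = X`, `R = Sc`, `w = ω`; `XD = Xδ`, `RD = ScD`, `XX = ScX`, `RR = ScSc`, `br`, `inv` are
fields.  `zX`: `(X2^k u)_(p,i) = ∑_s ε((X^k)_ps)_is κ1 w_s⁻¹` (`X2^k = Phi ε (X^k)`, `u_eq`), so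
`z k p i = ∑_s w_i w_s⁻¹ ε((X^k)_ps)_is` and
`∑_i δ(z k p i)_ir = ∑_s w_s⁻¹ ∑_i w_i δ(ε((X^k)_ps)_is)_ir = ∑_s w_s⁻¹ [r = s] w_r (X^k)_ps = (X^k)_pr`
(`cap1`, `w_ne`). -/
def S_SDF : Prop :=
  ∀ (A : Type) [Ring A] [Algebra ℂ A] (ι : Type) [Fintype ι] [DecidableEq ι] (C : Core0 A ι)
    (P : CoreP C), ∃ S : Sd A ι, S.D = C.δ ∧ S.X = C.X ∧ S.R = P.Sc ∧
      S.z = fun k p i => (P.κ1⁻¹ * C.w i) • (X2 C.ε C.X ^ k *ᵥ C.u) (p, i)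

/-- **BLK** (the blocks of both sides).

PROOF. `cen .. sum`: fields of `Core`.  `l ≥ 2`, so `c + 1 ≠ c` in `ZMod l`.
(E) `h` = value at `c`, `β = al c`: `al c c = 1`.  `bl`: by `BL2` `m' = m + al c'`; `(al c') c =
[c = c'] - [c = c'+1]` is `≤ 0` unless `c' = c`.
(F) `h` = value at `c+1`, `β = -al c`: `-(al c)(c+1) = 1`.  `δ(e m') diag(e m) ≠ 0 → ∃ c', m' = m - al c'`:
otherwise `m ≠ m' + al c'` for all `c'`, so `ε(e m) diag(e m') = 0` (`BL2`), and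
`δ(e m')_rp e_m = ∑_j δ(e m')_rj ∑_i δ(ε(e m)_pi)_ji` (`cup0`: the inner sum is `[p = j] e_m`)
`= ∑_i δ(e_m' ε(e m)_pi)_ri = 0`.  `-(al c')(c+1) = [c+1 = c'+1] - [c+1 = c']` is `≤ 0` unless `c' = c`. -/
def S_BLK : Prop :=
  ∀ (A : Type) [Ring A] [Algebra ℂ A] (ι : Type) [Fintype ι] [DecidableEq ι] (l : ℕ), 2 ≤ l →
  ∀ (C : Core A ι l) (S : Sd A ι) (c : ZMod l),
    (S.D = C.ε → Blk S l C.e C.types (Pi.evalAddMonoidHom (fun _ => ℤ) c) (al c)) ∧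
    (S.D = C.δ → Blk S l C.e C.types (Pi.evalAddMonoidHom (fun _ => ℤ) (c + 1)) (-al c))

/-! ### ST+ and the chain -/

/-- **STFP** (STF, pointwise).

PROOF. `X2^k - X1'^k = ∑_(i+j=k-1) X2^i (vecMulVec u v) X1'^j` (`X2eq`, induction on `k`), so
`(act σ (X2^k - X1'^k))_y (b) = ∑_(i+j=k-1) ∑_x σ_x((X2^i u)_x ((v X1'^j)_y b)) = 0`; linearity in `p`
(`act_add`, `act_smul`, `Polynomial.induction_on'`). -/
def S_STFP : Prop :=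
  ∀ (A : Type) [Ring A] [Algebra ℂ A] (ι : Type) [Fintype ι] [DecidableEq ι] (C : Core0 A ι)
    (σ : ι × ι → (A →ₗ[ℂ] ℂ)),
    (∀ i a, ∑ x, σ x ((X2 C.ε C.X ^ i *ᵥ C.u) x * a) = 0) →
    ∀ p : Polynomial ℂ,
      act σ (pev p (X2 C.ε C.X)) = act σ (pev p (sc A C.S * X1 C.X * sc A C.T))

/-- **STP** (ST+).

PROOF (from CORE1, BLX, STFP). Copy `Pool/Agent/Helper93/SQ/ST.lean` (`t_st`), where the only use of
`TrZero` is STF; replace `hSTF A ι l C ζ m hTr σ .. (C.pc c)` by `STFP`.  (1) is its second part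
(`s1 .. s4`), (2) is its first part. -/
def S_STP : Prop :=
  ∀ (A : Type) [Ring A] [Algebra ℂ A] (ι : Type) [Fintype ι] [DecidableEq ι] (l : ℕ)
    (C : Core A ι l) (ζ : ℂ) (c : ZMod l) (m : ZMod l → ℤ) (σ : ι × ι → (A →ₗ[ℂ] ℂ)),
    (IsEF C ζ c m σ →
      (∀ i a, ∑ x, act σ (sc A C.T) x ((X2 C.ε C.X ^ i *ᵥ C.u) x * a) = 0) →
      IsFE C ζ c m (act σ (sc A C.T))) ∧
    (IsFE C ζ c m σ → (∀ i a, ∑ x, σ x ((X2 C.ε C.X ^ i *ᵥ C.u) x * a) = 0) →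
      IsEF C ζ c m (act σ (sc A C.S)))

/-- **CT**.

PROOF. `∑_x (act σ T)_x (w_x a) = ∑_y σ_y((T w)_y a)` for a column `w`.  `w = X2^i u`:
`X2^i u = X1'^i u + ∑_(r+s=i-1) X1'^r u (v X2^s u)` (from
`X2^i - X1'^i = ∑_(r+s=i-1) X1'^r (vecMulVec u v) X2^s`), `X1'^r = S X1^r T` (CORE0 (5) or directly from
`TS = 1`, for `r = 0` `ST = 1`), so `T X1'^r u = X1^r (T u)`, and by `Tu` its entry at `(i',p)` is
`κ2 (X^r)_(p,i')`.  So `∑_y σ_y((T w)_y a)` is a combination of the sums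
`κ2 ∑_(i',p) σ_(i',p)((X^r)_(p,i') (b_s a))` with `b_s = v X2^s u` (on the left of `a`), all `0`. -/
def S_CT : Prop :=
  ∀ (A : Type) [Ring A] [Algebra ℂ A] (ι : Type) [Fintype ι] [DecidableEq ι] (C : Core0 A ι)
    (_ : CoreP C) (σ : ι × ι → (A →ₗ[ℂ] ℂ)),
    (∀ k x, ∑ i, ∑ p, σ (i, p) ((C.X ^ k) p i * x) = 0) →
    ∀ i a, ∑ x, act σ (sc A C.T) x ((X2 C.ε C.X ^ i *ᵥ C.u) x * a) = 0

/-- **OMF** (rotation of functionals; `om` of Helper54/SQ/SW).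

PROOF. `Helper54.SQ.rot`, as in the proof of `t_sw` there. -/
def S_OMF : Prop :=
  ∀ (A : Type) [Ring A] [Algebra ℂ A] (ι : Type) [Fintype ι] [DecidableEq ι] (l : ℕ)
    (C : Core A ι l) (ζ : ℂ) (c : ZMod l) (m : ZMod l → ℤ) (σ : ι × ι → (A →ₗ[ℂ] ℂ)),
    (IsFE C ζ c m σ → IsEF C ζ c (m + al c) (Helper54.SQ.om C.ε σ) ∧
      (Helper54.SQ.om C.ε σ = 0 → σ = 0)) ∧
    (IsEF C ζ c m σ → IsFE C ζ c (m - al c) (Helper54.SQ.om C.δ σ) ∧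
      (Helper54.SQ.om C.δ σ = 0 → σ = 0))

/-- **SG1** (the first functionals).

PROOF. This is `hσ` in the two halves of `Helper28.SQ.t_kill` (copy). -/
def S_SG1 : Prop :=
  ∀ (A : Type) [Ring A] [Algebra ℂ A] (ι : Type) [Fintype ι] [DecidableEq ι] (l : ℕ)
    (C : Core A ι l) (ζ : ℂ) (c : ZMod l) (m : ZMod l → ℤ) (τ : A →ₗ[ℂ] ℂ), IsTrz C ζ m τ →
    IsEF C ζ c (m + al c) (fun y => Helper28.SQ.fnl τ C.ε (C.e (m + al c)) y.2 y.1) ∧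
    IsFE C ζ c (m - al c)
      (fun y => C.w y.2 • Helper28.SQ.fnl τ C.δ (C.e (m - al c)) y.2 y.1)

/-- **VANE** (VAN+ for `eps`).

PROOF (from SIDE, SDE, BLK, STP, CT, OMF, SG1). Let `S` be the side of SDE, `β = al c`,
`E j = e (m + (j+1) β)`.  The hypothesis of SIDE: `Tr(Xv^k ε(y)) = ∑_(a,r) (∑_p ε((X^k)_pa)_pr) ε(y)_ra =
∑_(a,p) ε((X^k)_pa y)_pa` (`S.zX`, `S.z`), `y = x e_(m+β)`.  So SIDE:
`∑_(p,i) sge j p i ((X^k)_ip x) = 0` for all `j, k, x`.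
Put `σ 0 = fun y => fnl τ ε (e (m+β)) y.2 y.1`, `σ (j+1) = om ε (act (σ j) (sc T))`.  Claim:
`IsEF C ζ c (m + (j+1) β) (σ j)` and `σ j (p,a) b = sge S τ E j p a b`.  `j = 0`: SG1, and both are
`τ(ε(b e_(m+β))_ap)`.  Step: by the second part and SIDE the hypothesis of CT holds for `σ j`, so STP (1)
gives `IsFE C ζ c (m+(j+1)β) (act (σ j) T)`, OMF (1) the first part.  Second part: by t3
`σ (j+1) (p,a) b = σ (j+1) (p,a) (b E_(j+1)) = ∑_k (act (σ j) T)_(a,k) (ε(b E_(j+1))_kp)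
= ∑_(k,x,y) T_(x,y),(a,k) (σ j)_(x,y)(..)` (`Helper93.SQ.act_sc`) and `S.R (a,x) (k,y) = T (x,y) (a,k)`.
For large `j`, `(m + (j+1) β)(c+1) < 0` so `e (m+(j+1)β) = 0` (`types_nonneg`, `e_types`) and `σ j = 0`
(t3).  Downwards: `σ (j+1) = 0` gives `act (σ j) T = 0` (OMF) and
`σ j = act (act (σ j) T) S = 0` (`TS`).  So `σ 0 = 0`, i.e. `τ(ε(b e_(m+β))_ij) = 0` for all `b, i, j`;
`y ε(b')_ij = ∑_k ε(δ(y)_ki b')_kj` (`Helper28.SQ.capA`) gives the claim. -/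
def S_VANE : Prop :=
  ∀ (A : Type) [Ring A] [Algebra ℂ A] (ι : Type) [Fintype ι] [DecidableEq ι] (l : ℕ), 2 ≤ l →
  ∀ (C : Core A ι l) (_ : CoreP C.toCore0) (ζ : ℂ) (c : ZMod l) (m : ZMod l → ℤ)
    (τ : A →ₗ[ℂ] ℂ), IsTrz C ζ m τ →
    (∀ k x, ∑ p, ∑ r, τ (C.ε ((C.X ^ k) p r * (x * C.e (m + al c))) p r) = 0) →
    ∀ y b i j, τ (y * C.ε (b * C.e (m + al c)) i j) = 0

/-- **VANF** (VAN+ for `delta`).

PROOF (from SIDE, SDF, BLK, STP, OMF, SG1). Let `S` be the side of SDF, `β = -al c`,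
`E j = e (m + (j+1) β)`; `m - al c = m + β`.  SIDE: `∑_(p,i) sge j p i (z k p i * x) = 0`,
`z k p i = κ1⁻¹ w_i (X2^k u)_(p,i)`.
Put `σ 0 = fun y => w y.2 • fnl τ δ (e (m+β)) y.2 y.1`, `σ (j+1) = om δ (act (σ j) (sc S))`.  Claim:
`IsFE C ζ c (m + (j+1) β) (σ j)` and `σ j (p,a) b = w_a sge S τ E j p a b`.  `j = 0`: SG1.  Step:
`∑_x (σ j)_x ((X2^k u)_x x') = ∑_(p,i) w_i sge j p i ((X2^k u)_(p,i) x') =
κ1 ∑_(p,i) sge j p i (z k p i * x') = 0` (`σ j` is linear, so `sge j p i` is compatible with scalars as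
`w_i ≠ 0`), so STP (2) gives `IsEF C ζ c (m+(j+1)β) (act (σ j) S)` and OMF (2) the first part.  Second
part: `σ (j+1) (p,a) b = σ (j+1) (p,a) (b E_(j+1)) = ∑_(k,x,y) S_(x,y),(a,k) (σ j)_(x,y)(δ(b E_(j+1))_kp)
= ∑ S_(x,y),(a,k) w_y sge j x y (..) = w_a ∑ Sc_(a,x),(k,y) sge j x y (..)` (`SSc`).  For large `j`,
`(m + (j+1) β)(c) < 0`, `e = 0`, `σ j = 0`.  Downwards with OMF, `ST`.  `σ 0 = 0` and `w ≠ 0` give
`τ(δ(b e)_ij) = 0`, and `w_i y δ(b')_ij = ∑_k w_k δ(ε(y)_ki b')_kj` (`Helper28.SQ.capB`). -/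
def S_VANF : Prop :=
  ∀ (A : Type) [Ring A] [Algebra ℂ A] (ι : Type) [Fintype ι] [DecidableEq ι] (l : ℕ), 2 ≤ l →
  ∀ (C : Core A ι l) (_ : CoreP C.toCore0) (ζ : ℂ) (c : ZMod l) (m : ZMod l → ℤ)
    (τ : A →ₗ[ℂ] ℂ), IsTrz C ζ m τ →
    (∀ k x, τ (Matrix.trace (C.X ^ k * C.δ (x * C.e (m - al c)))) = 0) →
    ∀ y b i j, τ (y * C.δ (b * C.e (m - al c)) i j) = 0

end

end Pool.Agent.Helper41.SQ
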