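import Pool.Agent.Helper34.SQ.GoalsT

/-!
Project SQ (MP_bb32d1_al), stage B, part (1): definitions and basic lemmas (all proved).
-/

set_option autoImplicit false
set_option linter.unusedSectionVars false

namespace Pool.Agent.Helper41.SQ

noncomputable section

open Matrix Pool.Agent.Helper19.SQ Pool.Agent.Helper34.SQ

/-! ### ordered products -/

section Run

variable {B B' : Type*} [Monoid B] [Monoid B']

/-- `run f s n = f s * f (s+1) * ... * f (s+n-1)`. -/
def run (f : ℕ → B) (s : ℕ) : ℕ → B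
  | 0 => 1
  | n + 1 => run f s n * f (s + n)

@[simp] theorem run_zero (f : ℕ → B) (s : ℕ) : run f s 0 = 1 := rfl

theorem run_succ (f : ℕ → B) (s n : ℕ) : run f s (n + 1) = run f s n * f (s + n) := rfl

@[simp] theorem run_one (f : ℕ → B) (s : ℕ) : run f s 1 = f s := by simp [run]

theorem run_add (f : ℕ → B) (s m n : ℕ) : run f s (m + n) = run f s m * run f (s + m) n := by
  induction n with
  | zero => simp
  | succ n ih => rw [← Nat.add_assoc, run_succ, ih, run_succ, mul_assoc, Nat.add_assoc]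

theorem run_succ_left (f : ℕ → B) (s n : ℕ) : run f s (n + 1) = f s * run f (s + 1) n := by
  rw [Nat.add_comm n 1, run_add, run_one]

theorem run_congr {f g : ℕ → B} {s n : ℕ} (h : ∀ i, s ≤ i → i < s + n → f i = g i) :
    run f s n = run g s n := by
  induction n with
  | zero => rfl
  | succ n ih =>
    rw [run_succ, run_succ, ih fun i h1 h2 => h i h1 (by omega), h (s + n) (by omega) (by omega)]

theorem run_shift (f : ℕ → B) (s t n : ℕ) : run (fun i => f (t + i)) s n = run f (t + s) n := by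
  induction n with
  | zero => rfl
  | succ n ih => rw [run_succ, run_succ, ih, Nat.add_assoc]

theorem run_map (g : B →* B') (f : ℕ → B) (s n : ℕ) :
    g (run f s n) = run (fun i => g (f i)) s n := by
  induction n with
  | zero => simp
  | succ n ih => rw [run_succ, run_succ, map_mul, ih]

theorem run_commute {f : ℕ → B} {s n : ℕ} {y : B}
    (h : ∀ i, s ≤ i → i < s + n → y * f i = f i * y) : y * run f s n = run f s n * y := by
  induction n with
  | zero => simp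
  | succ n ih =>
    rw [run_succ, ← mul_assoc, ih fun i h1 h2 => h i h1 (by omega), mul_assoc,
      h (s + n) (by omega) (by omega), mul_assoc]

/-- the monomial `X_0^{k_0} ... X_{p-1}^{k_{p-1}}`. -/
def mono (X : ℕ → B) (k : ℕ → ℕ) (p : ℕ) : B := run (fun i => X i ^ k i) 0 p

/-- the commutation relations, braid and far relations (strands `0..p-1`, crossings
`R_i`, `i + 1 < p`, and `X_i = R_i X_{i+1} R_i`). -/
structure HeckeRel {B : Type*} [Ring B] [Algebra ℂ B] (w : ℂ) (p : ℕ) (X R : ℕ → B) : Prop where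
  XX : ∀ i k, i < p → k < p → X i * X k = X k * X i
  quad : ∀ i, i + 1 < p → R i * R i = 1 + w • R i
  slide : ∀ i, i + 1 < p → X i = R i * X (i + 1) * R i
  RX : ∀ i k, i + 1 < p → k < p → k ≠ i → k ≠ i + 1 → R i * X k = X k * R i
  far : ∀ i k, i + 1 < k → k + 1 < p → R i * R k = R k * R i
  braid : ∀ i, i + 2 < p → R i * R (i + 1) * R i = R (i + 1) * R i * R (i + 1)

end Run

/-! ### ampliations -/

section Amp

variable {A : Type} [Ring A] [Algebra ℂ A] {ι κ : Type} [Fintype ι] [DecidableEq ι]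
  [Fintype κ] [DecidableEq κ]

/-- `PhG f M` has the entry `f (M x.1 y.1) x.2 y.2` at `(x, y)`. -/
def PhG (f : A →ₐ[ℂ] Matrix κ κ A) : Matrix ι ι A →ₐ[ℂ] Matrix (ι × κ) (ι × κ) A :=
  AlgHom.ofLinearMap
    { toFun := fun M => Matrix.of fun x y => f (M x.1 y.1) x.2 y.2
      map_add' := fun M M' => by ext x y; simp
      map_smul' := fun c M => by ext x y; simp }
    (by
      ext x y
      change f ((1 : Matrix ι ι A) x.1 y.1) x.2 y.2 = _
      rw [Matrix.one_apply, Matrix.one_apply]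
      by_cases h1 : x.1 = y.1
      · rw [if_pos h1, map_one, Matrix.one_apply]
        by_cases h2 : x.2 = y.2
        · rw [if_pos h2, if_pos (Prod.ext h1 h2)]
        · rw [if_neg h2, if_neg fun h => h2 (congrArg Prod.snd h)]
      · rw [if_neg h1, map_zero, if_neg fun h => h1 (congrArg Prod.fst h)]
        rfl)
    (fun M M' => by
      ext x y
      change f ((M * M') x.1 y.1) x.2 y.2 = _
      rw [Matrix.mul_apply, Matrix.mul_apply, map_sum, Matrix.sum_apply,
        Fintype.sum_prod_type]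
      refine Finset.sum_congr rfl fun k _ => ?_
      rw [map_mul, Matrix.mul_apply]
      rfl)

@[simp] theorem PhG_apply (f : A →ₐ[ℂ] Matrix κ κ A) (M : Matrix ι ι A) (x y : ι × κ) :
    PhG f M x y = f (M x.1 y.1) x.2 y.2 := rfl

theorem PhG_eq_Phi (f : A →ₐ[ℂ] Matrix ι ι A) (M : Matrix ι ι A) : PhG f M = Phi f M := rfl

/-- `1 (x) M` on `ι × κ`. -/
def bdG (ι : Type) [Fintype ι] [DecidableEq ι] :
    Matrix κ κ A →ₐ[ℂ] Matrix (ι × κ) (ι × κ) A :=
  AlgHom.ofLinearMap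
    { toFun := fun M => Matrix.of fun x y => if x.1 = y.1 then M x.2 y.2 else 0
      map_add' := fun M M' => by
        ext x y
        simp only [Matrix.of_apply, Matrix.add_apply]
        split <;> simp
      map_smul' := fun c M => by
        ext x y
        simp only [Matrix.of_apply, Matrix.smul_apply, RingHom.id_apply]
        split <;> simp }
    (by
      ext x y
      change (if x.1 = y.1 then (1 : Matrix κ κ A) x.2 y.2 else 0) = _
      rw [Matrix.one_apply, Matrix.one_apply]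
      by_cases h1 : x.1 = y.1
      · rw [if_pos h1]
        by_cases h2 : x.2 = y.2
        · rw [if_pos h2, if_pos (Prod.ext h1 h2)]
        · rw [if_neg h2, if_neg fun h => h2 (congrArg Prod.snd h)]
      · rw [if_neg h1, if_neg fun h => h1 (congrArg Prod.fst h)])
    (fun M M' => by
      ext x y
      change (if x.1 = y.1 then (M * M') x.2 y.2 else 0) = _
      rw [Matrix.mul_apply, Matrix.mul_apply, Fintype.sum_prod_type]
      rw [Finset.sum_eq_single x.1]
      · by_cases h1 : x.1 = y.1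
        · simp [h1]
        · simp [h1]
      · intro b _ hb
        simp [Ne.symm hb]
      · intro h; exact absurd (Finset.mem_univ _) h)

@[simp] theorem bdG_apply (M : Matrix κ κ A) (x y : ι × κ) :
    bdG ι M x y = if x.1 = y.1 then M x.2 y.2 else 0 := rfl

theorem bdG_eq_X1 (M : Matrix ι ι A) : bdG ι M = X1 M := rfl

/-- `R (x) 1` on `ι × (ι × κ)`. -/
def lfR (A : Type) [Ring A] [Algebra ℂ A] (κ : Type) [DecidableEq κ]
    (R : Matrix (ι × ι) (ι × ι) ℂ) : Matrix (ι × (ι × κ)) (ι × (ι × κ)) A :=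
  Matrix.of fun x y =>
    if x.2.2 = y.2.2 then algebraMap ℂ A (R (x.1, x.2.1) (y.1, y.2.1)) else 0

/-- `Ps3 H M` on `ι × (ι × κ)` has the entry `H (M (x.1, x.2.1) (y.1, y.2.1)) x.2.2 y.2.2`. -/
def Ps3 (H : A →ₐ[ℂ] Matrix κ κ A) :
    Matrix (ι × ι) (ι × ι) A →ₐ[ℂ] Matrix (ι × (ι × κ)) (ι × (ι × κ)) A :=
  (Matrix.reindexAlgEquiv ℂ A (Equiv.prodAssoc ι ι κ)).toAlgHom.comp (PhG H)

theorem Ps3_apply (H : A →ₐ[ℂ] Matrix κ κ A) (M : Matrix (ι × ι) (ι × ι) A)
    (x y : ι × (ι × κ)) :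
    Ps3 H M x y = H (M (x.1, x.2.1) (y.1, y.2.1)) x.2.2 y.2.2 := rfl

theorem Ps3_sc (H : A →ₐ[ℂ] Matrix κ κ A) (R : Matrix (ι × ι) (ι × ι) ℂ) :
    Ps3 H (sc A R) = lfR A κ R := by
  ext x y
  rw [Ps3_apply]
  simp only [sc, Matrix.map_apply, lfR, Matrix.of_apply]
  rw [AlgHom.commutes, Matrix.algebraMap_matrix_apply]

theorem Ps3_Phi (H : A →ₐ[ℂ] Matrix κ κ A) (f : A →ₐ[ℂ] Matrix ι ι A) (M : Matrix ι ι A) :
    Ps3 H (Phi f M) = PhG ((PhG H).comp f) M := rfl

theorem Ps3_X1 (H : A →ₐ[ℂ] Matrix κ κ A) (M : Matrix ι ι A) :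
    Ps3 H (X1 M) = bdG ι (PhG H M) := by
  ext x y
  rw [Ps3_apply, bdG_apply, PhG_apply]
  simp only [X1, Matrix.of_apply]
  split
  · rfl
  · rw [map_zero]; rfl

/-- the braid relation for a scalar matrix on `ι × ι`: `R (x) 1`. -/
def r12 (R : Matrix (ι × ι) (ι × ι) ℂ) : Matrix (ι × (ι × ι)) (ι × (ι × ι)) ℂ :=
  Matrix.of fun x y => if x.2.2 = y.2.2 then R (x.1, x.2.1) (y.1, y.2.1) else 0

/-- `1 (x) R`. -/
def r23 (R : Matrix (ι × ι) (ι × ι) ℂ) : Matrix (ι × (ι × ι)) (ι × (ι × ι)) ℂ :=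
  Matrix.of fun x y => if x.1 = y.1 then R x.2 y.2 else 0

end Amp

/-! ### the structure `Sd` (one side) and the tower -/

/-- An algebra map `D : A → M_n(A)` with an operator `X` and a scalar crossing `R`. -/
structure Sd (A : Type) [Ring A] [Algebra ℂ A] (ι : Type) [Fintype ι] [DecidableEq ι] where
  D : A →ₐ[ℂ] Matrix ι ι A
  X : Matrix ι ι A
  R : Matrix (ι × ι) (ι × ι) ℂ
  w : ℂ
  z : ℕ → ι → ι → A
  w_ne : w ≠ 0
  XD : ∀ a, X * D a = D a * X
  RD : ∀ a, sc A R * Phi D (D a) = Phi D (D a) * sc A R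
  XX : Phi D X = sc A R * X1 X * sc A R
  RR : R * R = 1 + w • R
  br : r12 R * r23 R * r12 R = r23 R * r12 R * r23 R
  inv : ∃ g : Polynomial ℂ, g.coeff 0 = 0 ∧ pev g X = 1
  zX : ∀ k p r, (X ^ k) p r = ∑ i, D (z k p i) i r

section Tower

variable {A : Type} [Ring A] [Algebra ℂ A] {ι κ : Type} [Fintype ι] [DecidableEq ι]
  [Fintype κ] [DecidableEq κ]

/-- the `X`'s of the next level. -/
def nX (S : Sd A ι) (H : A →ₐ[ℂ] Matrix κ κ A) (X : ℕ → Matrix κ κ A) :
    ℕ → Matrix (ι × κ) (ι × κ) A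
  | 0 => PhG H S.X
  | i + 1 => bdG ι (X i)

/-- the `R`'s of the next level. -/
def nR (r : Matrix (ι × κ) (ι × κ) A) (R : ℕ → Matrix κ κ A) : ℕ → Matrix (ι × κ) (ι × κ) A
  | 0 => r
  | i + 1 => bdG ι (R i)

/-- the algebra map of the next level. -/
def nH (S : Sd A ι) (H : A →ₐ[ℂ] Matrix κ κ A) : A →ₐ[ℂ] Matrix (ι × κ) (ι × κ) A :=
  (PhG H).comp S.D

theorem nH_apply (S : Sd A ι) (H : A →ₐ[ℂ] Matrix κ κ A) (a : A) (x y : ι × κ) :
    nH S H a x y = H (S.D a x.1 y.1) x.2 y.2 := rfl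

/-- A level of the tower: `j` strands, index set `κ`, `H = D^j`, the operators `X_i`, `R_i`
on these strands, and `r` = the crossing of a new outer strand with the first strand. -/
structure GoodL (S : Sd A ι) (H : A →ₐ[ℂ] Matrix κ κ A) (X R : ℕ → Matrix κ κ A)
    (r : Matrix (ι × κ) (ι × κ) A) (j : ℕ) : Prop where
  rel : HeckeRel S.w j X R
  cX : ∀ i a, X i * H a = H a * X i
  cR : ∀ i a, R i * H a = H a * R i
  inv : ∀ i, i < j → ∃ g : Polynomial ℂ, g.coeff 0 = 0 ∧ pev g (X i) = 1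
  cr : ∀ a, r * PhG H (S.D a) = PhG H (S.D a) * r
  rr : 1 ≤ j → r * r = 1 + S.w • r
  Xr : 1 ≤ j → PhG H S.X = r * bdG ι (X 0) * r
  rX : ∀ i, 1 ≤ i → i < j → r * bdG ι (X i) = bdG ι (X i) * r
  rR : ∀ i, 1 ≤ i → i + 1 < j → r * bdG ι (R i) = bdG ι (R i) * r
  br1 : 2 ≤ j → r * bdG ι (R 0) * r = bdG ι (R 0) * r * bdG ι (R 0)
  br2 : 1 ≤ j → lfR A κ S.R * bdG ι r * lfR A κ S.R = bdG ι r * lfR A κ S.R * bdG ι r

/-- a bundled level. -/
structure LevD (A : Type) [Ring A] [Algebra ℂ A] (ι : Type) [Fintype ι] [DecidableEq ι] where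
  κ : Type
  [fin : Fintype κ]
  [dec : DecidableEq κ]
  H : A →ₐ[ℂ] Matrix κ κ A
  X : ℕ → Matrix κ κ A
  R : ℕ → Matrix κ κ A
  r : Matrix (ι × κ) (ι × κ) A

attribute [instance] LevD.fin LevD.dec

/-- the next level. -/
def LevD.step (S : Sd A ι) (L : LevD A ι) : LevD A ι where
  κ := ι × L.κ
  H := nH S L.H
  X := nX S L.H L.X
  R := nR L.r L.R
  r := lfR A L.κ S.R

/-- level 0: no strands. -/
def lev0 (A : Type) [Ring A] [Algebra ℂ A] (ι : Type) [Fintype ι] [DecidableEq ι] :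
    LevD A ι where
  κ := Unit
  H := AlgHom.ofLinearMap
    { toFun := fun a => Matrix.of fun _ _ => a
      map_add' := fun _ _ => rfl
      map_smul' := fun _ _ => rfl }
    (by ext; simp)
    (fun a b => by ext; simp [Matrix.mul_apply])
  X := fun _ => 1
  R := fun _ => 1
  r := 1

/-- the tower. -/
def tow (S : Sd A ι) : ℕ → LevD A ι
  | 0 => lev0 A ι
  | j + 1 => (tow S j).step S

/-- The functionals of the chain: value at `(d, a)` and `b`. -/
def sge (S : Sd A ι) (τ : A →ₗ[ℂ] ℂ) (E : ℕ → A) : ℕ → ι → ι → A → ℂ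
  | 0, d, a, b => τ (S.D (b * E 0) a d)
  | j + 1, p, a, b => ∑ k, ∑ x, ∑ y,
      S.R (a, x) (k, y) * sge S τ E j x y (S.D (b * E (j + 1)) k p)

/-- central idempotents indexed by the functions `Z/l → Z` and a height `h` such that `D`
raises the height by at most one, with equality only for `+ β`. -/
structure Blk (S : Sd A ι) (l : ℕ) (e : (ZMod l → ℤ) → A) (types : Finset (ZMod l → ℤ))
    (h : (ZMod l → ℤ) →+ ℤ) (β : ZMod l → ℤ) : Prop where
  cen : ∀ m a, e m * a = a * e m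
  idem : ∀ m, e m * e m = e m
  orth : ∀ m m', m ≠ m' → e m * e m' = 0
  zer : ∀ m, m ∉ types → e m = 0
  sum : ∑ m ∈ types, e m = 1
  hβ : h β = 1
  bl : ∀ m m', S.D (e m') * Matrix.diagonal (fun _ => e m) ≠ 0 →
    h m' < h m + 1 ∨ m' = m + β

end Tower

/-! ### dual pairs -/

section DP

variable {A : Type} [Ring A] [Algebra ℂ A] {κ : Type} [Fintype κ] [DecidableEq κ]

/-- a dual pair of algebra maps `A → M_κ(A)`. -/
structure IsDP (H Hs : A →ₐ[ℂ] Matrix κ κ A) : Prop where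
  cap : ∀ a I K, ∑ P, Hs (H a P K) P I = if I = K then a else 0
  cup : ∀ a J P, ∑ I, H (Hs a J I) P I = if J = P then a else 0

/-- `Z^v`. -/
def vv (Hs : A →ₐ[ℂ] Matrix κ κ A) (Z : Matrix κ κ A) : Matrix κ κ A :=
  Matrix.of fun K I => ∑ P, Hs (Z P K) P I

theorem vv_apply (Hs : A →ₐ[ℂ] Matrix κ κ A) (Z : Matrix κ κ A) (K I : κ) :
    vv Hs Z K I = ∑ P, Hs (Z P K) P I := rfl

end DP

/-! ### the additional structure on `Core0` -/

/-- The crossing `Sc : V (x) V → V (x) V`. -/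
structure CoreP {A : Type} [Ring A] [Algebra ℂ A] {ι : Type} [Fintype ι] [DecidableEq ι]
    (C : Core0 A ι) where
  Sc : Matrix (ι × ι) (ι × ι) ℂ
  ω : ℂ
  κ1 : ℂ
  κ2 : ℂ
  ω_ne : ω ≠ 0
  κ1_ne : κ1 ≠ 0
  u_eq : ∀ x, C.u x = if x.1 = x.2 then (κ1 * (C.w x.1)⁻¹) • (1 : A) else 0
  Tu : ∀ x, (sc A C.T *ᵥ C.u) x = if x.1 = x.2 then κ2 • (1 : A) else 0
  ScSc : Sc * Sc = 1 + ω • Sc
  ScD : ∀ a, sc A Sc * Phi C.δ (C.δ a) = Phi C.δ (C.δ a) * sc A Sc
  ScX : Phi C.δ C.X = sc A Sc * X1 C.X * sc A Sc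
  br : r12 Sc * r23 Sc * r12 Sc = r23 Sc * r12 Sc * r23 Sc
  TSc : ∀ a b c d, C.T (b, d) (a, c) = (Sc - ω • (1 : Matrix (ι × ι) (ι × ι) ℂ)) (d, c) (b, a)
  SSc : ∀ a x k y, C.w y * C.S (x, y) (a, k) = C.w a * Sc (a, x) (k, y)
  inv : ∃ g : Polynomial ℂ, g.coeff 0 = 0 ∧ pev g C.X = 1

end

end Pool.Agent.Helper41.SQ
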