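import Pool.Agent.Helper19.SQ.GoalsB

/-!
Project SQ (MP_bb32d1_al), packet QS (singular vectors modulo a submodule).
-/

set_option autoImplicit false

namespace Pool.Agent.Helper41.SQ

open Matrix Pool.Agent.Helper19.SQ Pool.Agent.Helper34.SQ

theorem b_qs : S_QS := by
  intro N l _ q hl s e he W _ _ _ _ U w mu hE hK m
  have hs : Sing (N := N) q mu (U.mkQ w) := by
    refine ⟨fun i => ?_, fun j => ?_⟩
    · rw [← map_smul, Submodule.mkQ_apply, Submodule.Quotient.mk_eq_zero]
      exact hE i
    · have h1 := hK j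
      rw [← Submodule.Quotient.mk_eq_zero, ← Submodule.mkQ_apply, map_sub, map_smul,
        sub_eq_zero] at h1
      rw [h1]
      rfl
  have h2 := he.act (W ⧸ U) mu (U.mkQ w) m hs
  rw [← Submodule.Quotient.mk_eq_zero, ← Submodule.mkQ_apply, map_sub, map_smul, h2, sub_eq_zero]
  by_cases h : ty mu = m
  · rw [if_pos h, if_pos h]
  · rw [if_neg h, if_neg h, map_zero]

end Pool.Agent.Helper41.SQ
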